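import Pool.Agent.Y644.QW.Opt
set_option autoImplicit false

/-!
# The second machine

A call with counter `g + 1` in the polyhedron `E = 0`, `I ≤ 0` from the vertex `v`: while there is a
facet containing the current vertex and an optimal vertex, go to this facet. If there is none, let
`w` be an optimal vertex; follow the path made with counter `g` in the relaxation without the rows
tight at `w`, until it reaches one of these rows. A call with counter `0` uses the first machine.
-/

namespace Pool.Agent.Y644.QW

open Pool.Agent.Y644.QS Pool.Agent.H687R2.LLL Pool.Agent.NPC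

/-- equations, inequalities, path -/
abbrev EIP : Type := List (List ℤ) × List (List ℤ) × List (List ℤ)

/-- states: a call with positive counter, or a state of the first machine, with a stack of calls
waiting for a path in a relaxation -/
abbrev WState : Type := ((ℕ × EIP) ⊕ State) × List (ℕ × EIP)

/-- a call with counter `g` -/
def mkcall (g : ℕ) (E I P : List (List ℤ)) : (ℕ × EIP) ⊕ State :=
  if g = 0 then Sum.inr (Sum.inl (E, I, P), []) else Sum.inl (g - 1, E, I, P)

/-- the rows which are not tight at an optimal vertex -/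
def wS (c : List ℤ) (E I : List (List ℤ)) : List (List ℤ) :=
  I.filter fun r => !decide (dot r (optw c E (jl c I)) = 0)

/-- the call in the facet `F` -/
def wfac (g : ℕ) (E I P : List (List ℤ)) (st : List (ℕ × EIP)) (F : List ℤ) : WState :=
  (Sum.inl (g, F :: E, I.filter (fun r => !decide (r = F)), P), st)

/-- return a path -/
def retW (p : List (List ℤ)) (st : List (ℕ × EIP)) : WState := (Sum.inr (Sum.inr p, []), st)

/-- a call with counter `g + 1` -/
def wcall (c : List ℤ) (g : ℕ) (E I P : List (List ℤ)) (st : List (ℕ × EIP)) : WState :=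
  if ((tight I (hdp P)).isEmpty || !decide (0 < dot (tau c) (hdp P))) = true then retW P st
  else (topF c E (jl c I) I (hdp P)).head?.elim
    (mkcall g E (wS c E I) [hdp P], (g, E, I, P) :: st) fun F => wfac g E I P st F

/-- a path in a relaxation has been computed and truncated to `q` -/
def wret (c : List ℤ) (g : ℕ) (E I P : List (List ℤ)) (st : List (ℕ × EIP))
    (q : List (List ℤ) × Bool) : WState :=
  if q.2 = true then (topF c E (jl c I) I (hdp q.1)).head?.elim (retW P st)
    fun F => wfac g E I (q.1 ++ P.tail) st F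
  else retW (q.1 ++ P.tail) st

/-- one step of the second machine -/
def wstep (c : List ℤ) : WState → WState
  | (Sum.inl (g, E, I, P), st) => wcall c g E (prune c E I) P st
  | (Sum.inr (Sum.inl x, l), st) => (Sum.inr (step c (Sum.inl x, l)), st)
  | (Sum.inr (Sum.inr p, f :: l), st) => (Sum.inr (step c (Sum.inr p, f :: l)), st)
  | (Sum.inr (Sum.inr p, []), []) => (Sum.inr (Sum.inr p, []), [])
  | (Sum.inr (Sum.inr p, []), (g, E, I, P) :: st) =>
    wret c g E I P st (trunc c E I (wS c E I) p)

variable {c : List ℤ}

theorem witer_add {s s' s'' : WState} {i j : ℕ} (h1 : (wstep c)^[i] s = s')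
    (h2 : (wstep c)^[j] s' = s'') : (wstep c)^[i + j] s = s'' := by
  rw [add_comm, Function.iterate_add_apply, h1, h2]

theorem wstep_fixed (p : List (List ℤ)) (k : ℕ) : (wstep c)^[k] (retW p []) = retW p [] := by
  induction k with
  | zero => rfl
  | succ k ih => rw [Function.iterate_succ_apply', ih]; rfl

theorem stepF (c : List ℤ) (p : List (List ℤ)) (k : ℕ) :
    (step c)^[k] ((Sum.inr p, []) : State) = (Sum.inr p, []) := by
  induction k with
  | zero => rfl
  | succ k ih => rw [Function.iterate_succ_apply', ih]; rfl

/-- the second machine simulates the first -/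
theorem sim (st : List (ℕ × EIP)) (p : List (List ℤ)) (j : ℕ) : ∀ s : State,
    (step c)^[j] s = (Sum.inr p, []) → ∃ i ≤ j, (wstep c)^[i] (Sum.inr s, st) = retW p st := by
  induction j with
  | zero =>
    intro s hs
    rw [Function.iterate_zero_apply] at hs
    exact ⟨0, le_rfl, by rw [hs]; rfl⟩
  | succ j ih =>
    intro s hs
    rw [Function.iterate_succ_apply] at hs
    by_cases ht : ∃ q, s = (Sum.inr q, [])
    · obtain ⟨q, rfl⟩ := ht
      have h1 : step c (Sum.inr q, []) = (Sum.inr q, []) := rfl
      rw [h1, stepF] at hs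
      exact ⟨0, Nat.zero_le _, by rw [hs]; rfl⟩
    · obtain ⟨i, hi, h1⟩ := ih _ hs
      refine ⟨i + 1, by omega, ?_⟩
      rw [Function.iterate_succ_apply]
      have h2 : wstep c (Sum.inr s, st) = (Sum.inr (step c s), st) := by
        obtain ⟨s, l⟩ := s
        cases s with
        | inl x => rfl
        | inr q =>
          cases l with
          | nil => exact absurd ⟨q, rfl⟩ ht
          | cons f l => rfl
      rw [h2]
      exact h1

/-- the result of a call -/
def WRes (c : List ℤ) (E I : List (List ℤ)) (v : List ℤ) (P0 : List (List ℤ))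
    (st : List (ℕ × EIP)) (B : ℕ) (s : WState) : Prop :=
  ∃ (Q : List (List ℤ)) (j : ℕ), j + 2 ≤ B ∧ (wstep c)^[j] s = retW (Q ++ v :: P0) st ∧
    Good c E (jl c I) (Q ++ [v]) ∧ Top c E (jl c I) (hdp (Q ++ [v]))

/-- going to a facet with the same top -/
theorem wfacet (hc : 0 < c.length) {E I : List (List ℤ)} (hE : Len c.length E)
    (hI : Len c.length I) {v x F : List ℤ} {P0 P Qp : List (List ℤ)} {st : List (ℕ × EIP)}
    {B : ℕ} {s : WState} (hPe : x :: P = Qp ++ [v]) (hP : Good c E (jl c I) (x :: P))
    (hF : F ∈ topF c E (jl c I) I x)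
    (h : WRes c (F :: E) (I.filter fun r => !decide (r = F)) x (P ++ P0) st B s) :
    WRes c E I v P0 st B s := by
  have hJ : Len c.length (jl c I) := hI.jl
  have hτJ : negV (tau c) ∈ jl c I := tau_mem_jl c I
  have hIJ : ∀ r ∈ I, r ∈ jl c I := fun r hr => mem_jl.2 (Or.inr hr)
  have hFI : F ∈ I := (List.mem_filter.1 hF).1
  obtain ⟨f1, f2⟩ := facet_rows (c := c) (I := I) (F := F)
  obtain ⟨Q1, j1, hj1, q2, q3, q4⟩ := h
  have hg1 : Good c E (jl c I) (Q1 ++ x :: P) := Good.append hP (q3.of_face (hIJ F hFI) f1 f2)
  refine ⟨Q1 ++ Qp, j1, hj1, ?_, ?_, ?_⟩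
  · have : x :: (P ++ P0) = (x :: P) ++ P0 := rfl
    rw [this, hPe] at q2
    rw [q2]
    simp
  · rw [List.append_assoc, ← hPe]
    exact hg1
  · have e : hdp ((Q1 ++ Qp) ++ [v]) = hdp (Q1 ++ [x]) := by
      rw [List.append_assoc, ← hPe]
      cases Q1 <;> rfl
    rw [e]
    obtain ⟨w, Pw, hw⟩ := good_cons hg1
    have hwh := hg1
    rw [hw] at hwh
    have hw' : hdp (Q1 ++ [x]) = w := by
      have h1 : hdp (Q1 ++ x :: P) = w := by rw [hw]; rfl
      rw [← h1]
      cases Q1 <;> rfl
    rw [hw'] at q4 ⊢
    have w1 := hwh.head.1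
    rcases hwh.head_or hτJ with hwτ | ⟨hwτ, hwc⟩
    · refine topF_spec hc hE hJ hτJ hIJ hF w1 hwh.head.2 hwτ fun h hh => ?_
      have := q4 h (hh.to_relax f2)
      rw [rf_gain w1]
      linarith
    · exact top_ray hτJ hwτ hwc

theorem pascal (g : ℕ) {D : ℕ} (hD : 0 < D) :
    Nat.choose (g + D) g + Nat.choose (g + 1 + (D - 1)) (g + 1) =
      Nat.choose (g + 1 + D) (g + 1) := by
  obtain ⟨d, rfl⟩ : ∃ d, D = d + 1 := ⟨D - 1, by omega⟩
  have e1 : g + 1 + (d + 1) = (g + 1 + d) + 1 := by omega
  have e2 : g + (d + 1) = g + 1 + d := by omega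
  rw [e1, Nat.choose_succ_succ, e2, Nat.add_sub_cancel]

/-- a bound for the number of steps -/
theorem wrun (hc : 0 < c.length) {B0 : ℕ} (hB : 1 ≤ B0)
    {Q : ℕ → List (List ℤ) → List (List ℤ) → Prop}
    (hf : ∀ g E I F, Q (g + 1) E I → Len c.length E → Len c.length I → F ∈ prune c E I →
      Q (g + 1) (F :: E) ((prune c E I).filter fun r => !decide (r = F)))
    (hw : ∀ g E I w, Q (g + 1) E I → Len c.length E → Len c.length I → w.length = c.length →
      Ext (rf c.length) E (jl c (prune c E I)) (lv c.length w) →
      Q g E ((prune c E I).filter fun r => !decide (dot r w = 0)))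
    (hb : ∀ E I v P0, Q 0 E I → Len c.length E → Len c.length I → Vx c E (jl c I) v →
      ∃ L, Result c E I v P0 [] B0 L (Sum.inl (E, I, v :: P0), [])) (g : ℕ) :
    ∀ (D : ℕ) (E I : List (List ℤ)) (v : List ℤ) (P0 : List (List ℤ)) (st : List (ℕ × EIP)),
      Q g E I → DimLe c E D → Len c.length E → Len c.length I → Vx c E (jl c I) v →
      WRes c E I v P0 st ((B0 + 2) * Nat.choose (g + D) g) (mkcall g E I (v :: P0), st) := by
  induction g with
  | zero =>
    intro D E I v P0 st hQ _ hE hI hv
    obtain ⟨L, Q, j, h1, h2, h3, h4, -⟩ := hb E I v P0 hQ hE hI hv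
    obtain ⟨i, hi, h5⟩ := sim (c := c) st _ j _ h2
    refine ⟨Q, i, ?_, ?_, h3, h4⟩
    · simp only [Nat.choose_zero_right, mul_one]; omega
    · unfold mkcall
      rw [if_pos rfl]
      exact h5
  | succ g ihg =>
    intro D
    induction D using Nat.strong_induction_on with
    | _ D ihD =>
      intro E I0 v P0 st hQ hD hE hI0 hv0
      have hQf := fun F hF => hf g E I0 F hQ hE hI0 hF
      have hQw := fun w h1 h2 => hw g E I0 w hQ hE hI0 h1 h2
      have hlive : ∀ r ∈ prune c E I0, live c E r = true := fun r hr => (mem_prune.1 hr).2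
      -- from the live rows to all rows
      suffices hmain : WRes c E (prune c E I0) v P0 st
          ((B0 + 2) * Nat.choose (g + 1 + D) (g + 1)) (mkcall (g + 1) E I0 (v :: P0), st) by
        obtain ⟨Q, j, h1, h2, h3, h4⟩ := hmain
        exact ⟨Q, j, h1, h2, good_prune hE hI0 hv0 h3, h4.of_relax prune_sub⟩
      have hcall : mkcall (g + 1) E I0 (v :: P0) = Sum.inl (g, E, I0, v :: P0) := by
        unfold mkcall
        rw [if_neg (by omega), Nat.add_sub_cancel]
      rw [hcall]
      have hI : Len c.length (prune c E I0) := hI0.filter _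
      have hv : Vx c E (jl c (prune c E I0)) v := vx_prune hE hI0 hv0
      have hstep0 : wstep c (Sum.inl (g, E, I0, v :: P0), st) =
          wcall c g E (prune c E I0) (v :: P0) st := rfl
      generalize prune c E I0 = I at *
      have hJ : Len c.length (jl c I) := hI.jl
      have hτJ : negV (tau c) ∈ jl c I := tau_mem_jl c I
      have hIJ : ∀ r ∈ I, r ∈ jl c I := fun r hr => mem_jl.2 (Or.inr hr)
      have hdot : ∀ r ∈ I, ∀ {x : List ℤ}, x.length = c.length →
          (dot r x = 0 ↔ rf c.length r (lv c.length x) = 0) := fun r hr x hx => by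
        rw [rf_dot (hI r hr) hx]; exact Int.cast_eq_zero.symm
      have hτ0 : 0 < dot (tau c) v := by
        have := hv.pos
        rw [rf_dot (length_tau c) hv.len] at this
        exact_mod_cast this
      have hhd : hdp (v :: P0) = v := rfl
      have hch1 : 1 ≤ Nat.choose (g + D) g := Nat.choose_pos (by omega)
      have hch2 : 1 ≤ Nat.choose (g + 1 + (D - 1)) (g + 1) := Nat.choose_pos (by omega)
      by_cases ht : tight I v = []
      · refine ⟨[], 1, ?_, ?_, hv, top_of_tight hI hv ht⟩
        · have : 1 ≤ Nat.choose (g + 1 + D) (g + 1) := Nat.choose_pos (by omega)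
          nlinarith
        · rw [Function.iterate_one, hstep0, wcall, if_pos (by rw [hhd, ht]; simp)]
          rfl
      -- the dimension is positive
      have hdim : ∀ F ∈ I, ∀ x : EuclideanSpace ℝ (Fin c.length),
          (∀ e ∈ E, rf c.length e x = 0) → x ≠ 0 → rf c.length F x = 0 →
          0 < D ∧ DimLe c (F :: E) (D - 1) := fun F hF x h1 h2 h3 =>
        live_facet hE hD (hI F hF) (hlive F hF) h1 h2 h3
      have hD0 : 0 < D := by
        obtain ⟨r0, hr0⟩ := List.exists_mem_of_ne_nil _ ht
        have h1 := (mem_tight hI hv.len).1 hr0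
        exact (hdim r0 h1.1 _ hv.ext.mem.1 hv.ext.ne h1.2).1
      have hpas := pascal g hD0
      -- the recursive call in a facet
      have hfacet : ∀ (x F : List ℤ) (P P1 Qp : List (List ℤ)), x :: P = Qp ++ [v] →
          Good c E (jl c I) (x :: P) → 0 < rf c.length (tau c) (lv c.length x) →
          F ∈ topF c E (jl c I) I x → P1 = P ++ P0 →
          WRes c E I v P0 st ((B0 + 2) * Nat.choose (g + 1 + (D - 1)) (g + 1))
            (wfac g E I (x :: P1) st F) := by
        rintro x F P P1 Qp hPe hP hxτ hF rfl
        obtain ⟨hFI, hF2⟩ := List.mem_filter.1 hF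
        rw [Bool.and_eq_true, decide_eq_true_iff] at hF2
        have hxl := hP.head.1
        have hxE := hP.head.2
        have hFx := (hdot F hFI hxl).1 hF2.1
        obtain ⟨f1, f2⟩ := facet_rows (c := c) (I := I) (F := F)
        have hx' : Vx c (F :: E) (jl c (I.filter fun r => !decide (r = F))) x :=
          ⟨hxl, hxE.to_face f1 f2 hFx, hxτ⟩
        have hres := ihD (D - 1) (by omega) (F :: E) (I.filter fun r => !decide (r = F)) x
          (P ++ P0) st (hQf F hFI) (hdim F hFI _ hxE.mem.1 hxE.ne hFx).2
          (hE.cons (hI F hFI)) (hI.filter _) hx'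
        have e : (mkcall (g + 1) (F :: E) (I.filter fun r => !decide (r = F)) (x :: (P ++ P0)),
            st) = wfac g E I (x :: (P ++ P0)) st F := by
          unfold mkcall wfac
          rw [if_neg (by omega), Nat.add_sub_cancel]
        rw [e] at hres
        exact wfacet hc hE hI hPe hP hF hres
      have hstep : wstep c (Sum.inl (g, E, I0, v :: P0), st) =
          (topF c E (jl c I) I v).head?.elim
          (mkcall g E (wS c E I) [v], (g, E, I, v :: P0) :: st)
          fun F => wfac g E I (v :: P0) st F := by
        rw [hstep0, wcall, if_neg]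
        · rfl
        · rw [hhd]
          have h3 : (tight I v).isEmpty = false := by
            rw [List.isEmpty_eq_false_iff]; exact ht
          simp [hτ0, h3]
      cases hh : (topF c E (jl c I) I v).head? with
      | some F =>
        rw [hh, Option.elim_some] at hstep
        obtain ⟨Q, j, h1, h2, h3, h4⟩ := hfacet v F [] P0 [] rfl hv hv.pos
          (List.mem_of_head? hh) rfl
        refine ⟨Q, 1 + j, ?_, witer_add (by rw [Function.iterate_one, hstep]) h2, h3, h4⟩
        rw [← hpas, Nat.mul_add]
        have := Nat.mul_le_mul_left (B0 + 2) hch1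
        omega
      | none =>
        rw [hh, Option.elim_none] at hstep
        rw [List.head?_eq_none_iff] at hh
        obtain ⟨w1, w2, w3, w4⟩ := optw_spec hc hE hJ hτJ hv
        -- rows tight at a vertex and at `w`
        have hmt : ∀ x : List ℤ, x.length = c.length → Ext (rf c.length) E (jl c I)
            (lv c.length x) → 0 < rf c.length (tau c) (lv c.length x) → ∀ r ∈ I,
            rf c.length r (lv c.length x) = 0 → dot r (optw c E (jl c I)) = 0 →
            r ∈ topF c E (jl c I) I x := fun x x1 x2 x3 r hr x4 x5 =>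
          mem_topF hE hJ hτJ hIJ hr ((hdot r hr x1).2 x4) (x := lv c.length x)
            (y := lv c.length (optw c E (jl c I))) x2.mem
            (thr_zero hc hE hJ x2 x3)
            (w2.mem.to_face (fun _ hr => hr) ((hdot r hr w1).1 x5)) w4 w3
        have hS : ∀ r ∈ wS c E I, r ∈ I := fun r hr => (List.mem_filter.1 hr).1
        have hSJ := jl_mono (c := c) hS
        have hvS : ∀ r ∈ I, rf c.length r (lv c.length v) = 0 → r ∈ wS c E I := by
          intro r hr h0
          refine List.mem_filter.2 ⟨hr, ?_⟩
          by_contra hcon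
          have h5 : dot r (optw c E (jl c I)) = 0 := by simpa using hcon
          have := hmt v hv.len hv.ext hv.pos r hr h0 h5
          rw [hh] at this
          simp at this
        have hvV : Vx c E (jl c (wS c E I)) v := by
          refine ⟨hv.len, hv.ext.to_relax hSJ fun r hr h0 => ?_, hv.pos⟩
          rcases mem_jl.1 hr with h | h
          · exact mem_jl.2 (Or.inl h)
          · exact mem_jl.2 (Or.inr (hvS r h h0))
        obtain ⟨Q, j, hj, q1, q2, q3⟩ := ihg D E (wS c E I) v [] ((g, E, I, v :: P0) :: st)
          (hQw _ w1 w2) hD hE (hI.filter _) hvV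
        obtain ⟨t1, t2, -, t4, t5⟩ := trunc_spec hE hI hS hv.ext.mem hvS q2 _ rfl
        have hstep2 : wstep c (retW (Q ++ [v]) ((g, E, I, v :: P0) :: st)) =
            wret c g E I (v :: P0) st (trunc c E I (wS c E I) (Q ++ [v])) := rfl
        generalize trunc c E I (wS c E I) (Q ++ [v]) = s at *
        by_cases hfl : s.2 = true
        · obtain ⟨x, P, hxP, hxτ, r, hrI, hrS, hrx⟩ := t5 hfl
          obtain ⟨Qp, hQp⟩ := t1
          have hg := t2
          rw [hxP] at hg
          have hhx : hdp s.1 = x := by rw [hxP]; rfl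
          have hr0 : dot r (optw c E (jl c I)) = 0 := by
            by_contra hcon
            exact hrS (List.mem_filter.2 ⟨hrI, by simpa using hcon⟩)
          have hrT := hmt x hg.head.1 hg.head.2 hxτ r hrI hrx hr0
          cases hh2 : (topF c E (jl c I) I x).head? with
          | none =>
            rw [List.head?_eq_none_iff] at hh2
            rw [hh2] at hrT
            simp at hrT
          | some F =>
            have hstep3 : wstep c (retW (Q ++ [v]) ((g, E, I, v :: P0) :: st)) =
                wfac g E I (x :: (P ++ P0)) st F := by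
              rw [hstep2, wret, if_pos hfl, hhx, hh2]
              simp only [Option.elim_some, List.tail_cons]
              rw [hxP]
              rfl
            obtain ⟨Q', j', h1, h2, h3, h4⟩ := hfacet x F P (P ++ P0) Qp
              (by rw [← hxP, hQp]) hg hxτ (List.mem_of_head? hh2) rfl
            refine ⟨Q', 1 + (j + (1 + j')), ?_, witer_add (by rw [Function.iterate_one, hstep])
              (witer_add q1 (witer_add (by rw [Function.iterate_one, hstep3]) h2)), h3, h4⟩
            rw [← hpas, Nat.mul_add]
            omega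
        · have hf' : s.2 = false := by simpa using hfl
          obtain ⟨u1, -⟩ := t4 hf'
          refine ⟨Q, 1 + (j + 1), ?_, witer_add (by rw [Function.iterate_one, hstep])
            (witer_add q1 ?_), ?_, q3.of_relax hSJ⟩
          · rw [← hpas, Nat.mul_add]
            have := Nat.mul_le_mul_left (B0 + 2) hch2
            omega
          · rw [Function.iterate_one, hstep2, wret, if_neg hfl, u1]
            simp
          · rw [← u1]; exact t2

end Pool.Agent.Y644.QW
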