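import Pool.Agent.Y644.QW.PolyWFinal
import Pool.Agent.Y644.QW.Len
set_option autoImplicit false

/-!
# The second algorithm: correctness and running time
-/

namespace Pool.Agent.Y644.QW

open Finset Pool.Agent.Y644.QS Pool.Agent.H687R2.LLL Pool.Agent.NPC Pool.Agent.NPC.H532.RP

variable {m n : ℕ} {A : Fin m → Fin n → ℚ} {b : Fin m → ℚ} {c v : Fin n → ℚ}

theorem lpBitsW_inp (K : ℕ) : lpBitsW (bits (inp A b c v)) K =
    lpW (inp A b c v) (sz (inp A b c v)) K := by
  unfold lpBitsW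
  rw [unbits_bits, bits_length]
  rfl

/-- the algorithm with counter `0` finishes -/
theorem term_general (hv : re v ∈ Set.extremePoints ℝ (polyhedron A b)) {L K : ℕ}
    (h : bnd n (m + n) ≤ K) : ∃ g ≤ L, ∃ k ≤ K, term (runW (inp A b c v) g k) = true := by
  obtain ⟨Q, j, h1, h2, -⟩ := run_lp_general (cc := c) hv 0
  rw [zero_add, Nat.choose_zero_right, mul_one] at h1
  exact ⟨0, Nat.zero_le _, j, by omega, term_iff.2 ⟨_, h2⟩⟩

/-- the algorithm finishes in polynomial time for a nested block structure -/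
theorem term_nested (hv : re v ∈ Set.extremePoints ℝ (polyhedron A b)) {D C L : ℕ}
    (hL : m + n < L) {X : Finset (Fin n)} {R : Finset (Fin m)} (hn : Nested A D X R)
    (h : (m - R.card) + (n - X.card) ≤ C * Nat.log 2 L ∨
      (X = Finset.univ ∧ Nat.log 2 (m - R.card) ^ 2 ≤ C * Nat.log 2 L)) :
    ∃ g ≤ L, ∃ k ≤ Kst D C L, term (runW (inp A b c v) g k) = true := by
  by_cases hLG : L ≤ (cst (D + 1)).1
  · exact term_general hv (small_le_Kst hLG (by omega) (by omega))
  push Not at hLG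
  refine ⟨(cst (D + 1)).1, hLG.le, ?_⟩
  rcases h with h | ⟨rfl, h⟩
  · obtain ⟨Q, j, h1, h2, -⟩ := run_lp_few (cc := c) hv hn
    exact ⟨j, le_Kst (by omega) (bnd_few hL h (Nat.le_add_left _ _)) h1, term_iff.2 ⟨_, h2⟩⟩
  · obtain ⟨Q, j, h1, h2, -⟩ := run_lp_rows (cc := c) hv hn
    exact ⟨j, le_Kst (by omega) (bnd_rows (by omega) h) h1, term_iff.2 ⟨_, h2⟩⟩

/-- the number of edges of the path for a nested block structure -/
theorem piv_nested (hv : re v ∈ Set.extremePoints ℝ (polyhedron A b)) {D N L : ℕ}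
    (hL : m + n < L) {X : Finset (Fin n)} {R : Finset (Fin m)} (hn : Nested A D X R)
    (hN : ∀ K, (∃ g ≤ L, ∃ k ≤ K, term (runW (inp A b c v) g k) = true) → N ≤ K) :
    N ≤ (pP D).eval (m + n) * 2 ^ (kP D * ((m - R.card) + (n - X.card))) ∧
      (X = Finset.univ →
        N ≤ (pP D).eval n * 2 ^ (kP D * (Nat.log 2 (m - R.card) + 1) ^ 2)) := by
  by_cases hLG : L ≤ (cst (D + 1)).1
  · have h := hN _ (term_general hv (L := L) (le_refl (bnd n (m + n))))
    exact ⟨piv_small hLG (by omega) (by omega) h, fun _ => piv_small hLG (by omega) (by omega) h⟩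
  push Not at hLG
  constructor
  · obtain ⟨Q, j, h1, h2, -⟩ := run_lp_few (cc := c) hv hn
    have h3 := hN j ⟨_, hLG.le, j, le_rfl, term_iff.2 ⟨_, h2⟩⟩
    exact piv_few (n := n) (Nat.le_add_left _ _) (Nat.le_add_left _ _) (h3.trans (by omega))
  · rintro rfl
    obtain ⟨Q, j, h1, h2, -⟩ := run_lp_rows (cc := c) hv hn
    have h3 := hN j ⟨_, hLG.le, j, le_rfl, term_iff.2 ⟨_, h2⟩⟩
    exact piv_rows (n := n) (h3.trans (by omega))

end Pool.Agent.Y644.QW
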