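import Pool.Agent.Y644.QW.Par
set_option autoImplicit false

/-!
# Polynomial bounds
-/

namespace Pool.Agent.Y644.QW

open Pool.Agent.Y644.QS Pool.Agent.NPC

/-- constants -/
def kA (D : ℕ) : ℕ := (cst (D + 1)).2.1 * ((cst (D + 1)).1 + 1) + 1

/-- constants -/
def kB (D : ℕ) : ℕ := ((cst (D + 1)).2.2 + 1) * kA D + 1

theorem dmax_le (D e : ℕ) : dmax (D + 1) e + e ≤ kA D * (1 + e) := by
  unfold dmax kA
  nlinarith [Nat.zero_le ((cst (D + 1)).2.1), Nat.zero_le ((cst (D + 1)).1)]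

/-- the bound for the last stage -/
def b0 (D C L : ℕ) : ℕ := 2 ^ (kA D + 4 + 4 * (kB D + 5) ^ 2) * (L + 1) ^ (kA D * C + 4 * C + 2)

theorem bnd_few {D C L M e q : ℕ} (hM : M < L) (h : e ≤ C * Nat.log 2 L) (hq : q ≤ e) :
    bnd (dmax (D + 1) e + q) M ≤ b0 D C L := by
  have hL0 : 0 < L := by omega
  set d := dmax (D + 1) e + q with hd
  have hd1 : d ≤ kA D * (1 + e) := (Nat.add_le_add_left hq _).trans (dmax_le D e)
  have h1 := wt_le M
  have h2 := choose_le_two_pow d (Nat.size M)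
  have h3 : Nat.size M ≤ Nat.log 2 L + 1 := (Nat.size_le_size hM.le).trans (size_le_log L)
  have h4 : d ≤ kA D + kA D * C * Nat.log 2 L := by
    calc d ≤ kA D * (1 + e) := hd1
      _ ≤ kA D * (1 + C * Nat.log 2 L) := Nat.mul_le_mul_left _ (by omega)
      _ = _ := by ring
  have h5 : 2 ^ (d + Nat.size M) ≤ 2 ^ kA D * L ^ (kA D * C) * (2 * L) := by
    calc 2 ^ (d + Nat.size M) ≤ 2 ^ ((kA D + kA D * C * Nat.log 2 L) + (Nat.log 2 L + 1)) :=
          Nat.pow_le_pow_right (by norm_num) (by omega)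
      _ = 2 ^ kA D * 2 ^ (kA D * C * Nat.log 2 L) * (2 ^ Nat.log 2 L * 2) := by
          rw [pow_add, pow_add, pow_succ]
      _ ≤ 2 ^ kA D * L ^ (kA D * C) * (L * 2) :=
          Nat.mul_le_mul (Nat.mul_le_mul_left _ (two_pow_log_mul hL0))
            (Nat.mul_le_mul_right _ (Nat.pow_log_le_self 2 hL0.ne'))
      _ = _ := by ring
  unfold bnd b0
  calc wt M * Nat.choose (d + Nat.size M) d
      ≤ (8 * (L + 1)) * (2 ^ kA D * L ^ (kA D * C) * (2 * L)) :=
        Nat.mul_le_mul (by omega) (h2.trans h5)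
    _ ≤ (8 * (L + 1)) * (2 ^ kA D * (L + 1) ^ (kA D * C) * (2 * (L + 1))) := by
        gcongr <;> omega
    _ = 2 ^ (kA D + 4) * (L + 1) ^ (kA D * C + 2) := by rw [pow_add, pow_add]; ring
    _ ≤ _ := Nat.mul_le_mul (Nat.pow_le_pow_right (by norm_num) (by omega))
        (Nat.pow_le_pow_right (by omega) (by omega))

theorem bnd_rows' (D e : ℕ) :
    bnd (dmax (D + 1) e) ((cst (D + 1)).2.2 * dmax (D + 1) e + e) ≤
      2 ^ ((kB D + 5 + Nat.log 2 e) ^ 2) := by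
  set d := dmax (D + 1) e with hd
  set k := (cst (D + 1)).2.2 * d + e with hk
  set l := Nat.log 2 e with hl
  have hd1 : d + e ≤ kA D * (1 + e) := dmax_le D e
  have he : e + 1 ≤ 2 ^ (l + 1) := Nat.lt_pow_succ_log_self (by norm_num) e
  have hk1 : k ≤ kB D * (1 + e) := by
    have h1 : (cst (D + 1)).2.2 * d ≤ (cst (D + 1)).2.2 * (kA D * (1 + e)) :=
      Nat.mul_le_mul_left _ (by omega)
    have h2 : e ≤ kA D * (1 + e) := by omega
    calc k ≤ (cst (D + 1)).2.2 * (kA D * (1 + e)) + kA D * (1 + e) := Nat.add_le_add h1 h2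
      _ ≤ kB D * (1 + e) := by unfold kB; nlinarith
  have hAB : kA D ≤ kB D := by unfold kB; nlinarith
  have hc : kB D ≤ 2 ^ kB D := (Nat.lt_two_pow_self).le
  have h2k : kB D * (1 + e) ≤ 2 ^ (kB D + (l + 1)) := by
    rw [pow_add, add_comm 1 e]
    exact Nat.mul_le_mul hc he
  have hks : Nat.size k ≤ kB D + l + 2 := by
    rw [Nat.size_le]
    calc k ≤ 2 ^ (kB D + (l + 1)) := hk1.trans h2k
      _ < 2 ^ (kB D + l + 2) := Nat.pow_lt_pow_right (by norm_num) (by omega)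
  have hd2 : d ≤ 2 ^ (kB D + (l + 1)) :=
    (show d ≤ kA D * (1 + e) by omega).trans ((Nat.mul_le_mul_right _ hAB).trans h2k)
  have hds : d + Nat.size k ≤ 2 ^ (kB D + l + 3) := by
    have h1 : Nat.size k ≤ 2 ^ (kB D + l + 2) := hks.trans (Nat.lt_two_pow_self).le
    have h2 : 2 ^ (kB D + (l + 1)) ≤ 2 ^ (kB D + l + 2) :=
      Nat.pow_le_pow_right (by norm_num) (by omega)
    have h3 : 2 ^ (kB D + l + 3) = 2 ^ (kB D + l + 2) * 2 := pow_succ 2 _
    omega
  have hw : wt k ≤ 2 ^ (kB D + l + 5) := by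
    have h1 := wt_le k
    have h2 : k ≤ 2 ^ (kB D + (l + 1)) := hk1.trans h2k
    have h3 : 2 ^ (kB D + l + 5) = 2 ^ (kB D + (l + 1)) * 16 := by
      rw [show kB D + l + 5 = (kB D + (l + 1)) + 4 by ring, pow_add]
      norm_num
    have h4 : 0 < 2 ^ (kB D + (l + 1)) := by positivity
    omega
  have hch := choose_le_pow' d (Nat.size k)
  unfold bnd
  calc wt k * Nat.choose (d + Nat.size k) d
      ≤ 2 ^ (kB D + l + 5) * (2 ^ (kB D + l + 3)) ^ (kB D + l + 2) :=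
        Nat.mul_le_mul hw (hch.trans ((Nat.pow_le_pow_left hds _).trans
          (Nat.pow_le_pow_right (by positivity) hks)))
    _ = 2 ^ ((kB D + l + 5) + (kB D + l + 3) * (kB D + l + 2)) := by
        rw [← pow_mul, ← pow_add]
    _ ≤ 2 ^ ((kB D + 5 + l) ^ 2) := Nat.pow_le_pow_right (by norm_num) (by nlinarith)

theorem bnd_rows {D C L e : ℕ} (hL0 : 0 < L) (h : Nat.log 2 e ^ 2 ≤ C * Nat.log 2 L) :
    bnd (dmax (D + 1) e) ((cst (D + 1)).2.2 * dmax (D + 1) e + e) ≤ b0 D C L := by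
  refine (bnd_rows' D e).trans ?_
  set l := Nat.log 2 e with hl
  unfold b0
  set t := kB D + 5 with ht
  calc 2 ^ ((t + l) ^ 2)
      ≤ 2 ^ (4 * t ^ 2 + 4 * (C * Nat.log 2 L)) := by
        refine Nat.pow_le_pow_right (by norm_num) ?_
        have h8 : (t + l) ^ 2 ≤ 2 * t ^ 2 + 2 * l ^ 2 := by
          zify
          nlinarith [sq_nonneg ((t : ℤ) - l)]
        have h9 : 0 ≤ t ^ 2 := Nat.zero_le _
        omega
    _ = 2 ^ (4 * t ^ 2) * (2 ^ (C * Nat.log 2 L)) ^ 4 := by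
        rw [pow_add, ← pow_mul]; congr 2; ring
    _ ≤ 2 ^ (4 * t ^ 2) * (L ^ C) ^ 4 :=
        Nat.mul_le_mul_left _ (Nat.pow_le_pow_left (two_pow_log_mul hL0) 4)
    _ ≤ 2 ^ (kA D + 4 + 4 * t ^ 2) * (L + 1) ^ (kA D * C + 4 * C + 2) := by
        refine Nat.mul_le_mul (Nat.pow_le_pow_right (by norm_num) (by omega)) ?_
        rw [← pow_mul]
        exact (Nat.pow_le_pow_left (Nat.le_succ L) _).trans
          (Nat.pow_le_pow_right (by omega) (by omega))

/-- the bound for the number of steps -/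
def Kst (D C L : ℕ) : ℕ := (b0 D C L + 2) * (L + (cst (D + 1)).1) ^ (cst (D + 1)).1 +
  (16 * (cst (D + 1)).1 + 16) ^ (Nat.size (cst (D + 1)).1 + 1)

theorem le_Kst {D C L n B j : ℕ} (hn : n < L) (hB : B ≤ b0 D C L)
    (h : j + 2 ≤ (B + 2) * Nat.choose ((cst (D + 1)).1 + n) (cst (D + 1)).1) :
    j ≤ Kst D C L := by
  have h1 : Nat.choose ((cst (D + 1)).1 + n) (cst (D + 1)).1 ≤
      (L + (cst (D + 1)).1) ^ (cst (D + 1)).1 :=
    (Nat.choose_le_pow _ _).trans (Nat.pow_le_pow_left (by omega) _)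
  have h2 := Nat.mul_le_mul (Nat.add_le_add_right hB 2) h1
  unfold Kst
  omega

theorem small_le_Kst {D C L M n : ℕ} (hL : L ≤ (cst (D + 1)).1) (hn : n ≤ L) (hM : M ≤ L) :
    bnd n M ≤ Kst D C L := by
  refine (bnd_le_pow hn hM).trans (le_trans ?_ (Nat.le_add_left _ _))
  have h1 : Nat.size L ≤ Nat.size (cst (D + 1)).1 := Nat.size_le_size hL
  exact (Nat.pow_le_pow_left (by omega) _).trans (Nat.pow_le_pow_right (by omega) (by omega))

theorem bnd_main {L m n : ℕ} (hL : m + n < L) :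
    bnd n (m + n) ≤ (16 * L + 16) ^ sz (16 * L + 16) := by
  refine (bnd_le_pow (L := L) (by omega) (by omega)).trans ?_
  refine Nat.pow_le_pow_right (by omega) ?_
  refine le_trans ?_ (size_le_sz _)
  have h1 : Nat.size (2 * L) ≤ Nat.size (16 * L + 16) := Nat.size_le_size (by omega)
  have h2 : Nat.size (2 * L) = Nat.size L + 1 := by
    rw [size_half (by omega)]
    simp
  omega

/-! ### Bounds for the number of edges of the path -/

/-- a polynomial -/
noncomputable def pP (D : ℕ) : Polynomial ℕ :=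
  (Polynomial.C (2 ^ kA D) * (8 * Polynomial.X + 1) * (2 * Polynomial.X + 1) + 2) *
    (Polynomial.X + Polynomial.C (cst (D + 1)).1) ^ (cst (D + 1)).1 +
  Polynomial.C ((16 * (cst (D + 1)).1 + 16) ^ (Nat.size (cst (D + 1)).1 + 1))

/-- a constant -/
def kP (D : ℕ) : ℕ := kA D + (kB D + 5) ^ 2

theorem pP_eval (D x : ℕ) : (pP D).eval x =
    (2 ^ kA D * (8 * x + 1) * (2 * x + 1) + 2) * (x + (cst (D + 1)).1) ^ (cst (D + 1)).1 +
      (16 * (cst (D + 1)).1 + 16) ^ (Nat.size (cst (D + 1)).1 + 1) := by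
  simp [pP]

theorem two_pow_size_le (M : ℕ) : 2 ^ Nat.size M ≤ 2 * M + 1 := by
  cases hs : Nat.size M with
  | zero => simp
  | succ s =>
    have h1 : 2 ^ s ≤ M := Nat.lt_size.1 (by omega)
    rw [pow_succ]
    omega

theorem piv_few {D M n e q N : ℕ} (hn : n ≤ M) (hq : q ≤ e)
    (h : N ≤ (bnd (dmax (D + 1) e + q) M + 2) *
      Nat.choose ((cst (D + 1)).1 + n) (cst (D + 1)).1) :
    N ≤ (pP D).eval M * 2 ^ (kP D * e) := by
  set G := (cst (D + 1)).1 with hG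
  have h1 : Nat.choose (G + n) G ≤ (M + G) ^ G :=
    (Nat.choose_le_pow _ _).trans (Nat.pow_le_pow_left (by omega) _)
  have hd1 : dmax (D + 1) e + q ≤ kA D * (1 + e) :=
    (Nat.add_le_add_left hq _).trans (dmax_le D e)
  have h2 : bnd (dmax (D + 1) e + q) M ≤
      2 ^ kA D * (8 * M + 1) * (2 * M + 1) * 2 ^ (kP D * e) := by
    unfold bnd
    calc wt M * Nat.choose (dmax (D + 1) e + q + Nat.size M) (dmax (D + 1) e + q)
        ≤ (8 * M + 1) * 2 ^ (kA D * (1 + e) + Nat.size M) :=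
          Nat.mul_le_mul (wt_le M) ((choose_le_two_pow _ _).trans
            (Nat.pow_le_pow_right (by norm_num) (by omega)))
      _ = (8 * M + 1) * (2 ^ kA D * 2 ^ (kA D * e) * 2 ^ Nat.size M) := by
          rw [mul_add, mul_one, pow_add, pow_add]
      _ ≤ (8 * M + 1) * (2 ^ kA D * 2 ^ (kP D * e) * (2 * M + 1)) := by
          refine Nat.mul_le_mul_left _ (Nat.mul_le_mul (Nat.mul_le_mul_left _
            (Nat.pow_le_pow_right (by norm_num) (Nat.mul_le_mul_right _ ?_)))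
            (two_pow_size_le M))
          unfold kP; omega
      _ = _ := by ring
  have h3 : 1 ≤ 2 ^ (kP D * e) := Nat.one_le_two_pow
  rw [pP_eval]
  calc N ≤ (2 ^ kA D * (8 * M + 1) * (2 * M + 1) * 2 ^ (kP D * e) + 2 * 2 ^ (kP D * e)) *
        (M + G) ^ G := h.trans (Nat.mul_le_mul (by omega) h1)
    _ = (2 ^ kA D * (8 * M + 1) * (2 * M + 1) + 2) * (M + G) ^ G * 2 ^ (kP D * e) := by ring
    _ ≤ _ := Nat.mul_le_mul_right _ (Nat.le_add_right _ _)

theorem piv_rows {D n e N : ℕ}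
    (h : N ≤ (bnd (dmax (D + 1) e) ((cst (D + 1)).2.2 * dmax (D + 1) e + e) + 2) *
      Nat.choose ((cst (D + 1)).1 + n) (cst (D + 1)).1) :
    N ≤ (pP D).eval n * 2 ^ (kP D * (Nat.log 2 e + 1) ^ 2) := by
  set G := (cst (D + 1)).1 with hG
  set l := Nat.log 2 e with hl
  have h1 : Nat.choose (G + n) G ≤ (n + G) ^ G :=
    (Nat.choose_le_pow _ _).trans (Nat.pow_le_pow_left (by omega) _)
  have h2 := (bnd_rows' D e).trans (Nat.pow_le_pow_right (n := 2) (by norm_num)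
    (show (kB D + 5 + l) ^ 2 ≤ kP D * (l + 1) ^ 2 by
      unfold kP
      have h4 : kB D + 5 + l ≤ (kB D + 5) * (l + 1) := by nlinarith
      calc (kB D + 5 + l) ^ 2 ≤ ((kB D + 5) * (l + 1)) ^ 2 := Nat.pow_le_pow_left h4 2
        _ = (kB D + 5) ^ 2 * (l + 1) ^ 2 := by rw [mul_pow]
        _ ≤ _ := Nat.mul_le_mul_right _ (Nat.le_add_left _ _)))
  have h3 : 1 ≤ 2 ^ (kP D * (l + 1) ^ 2) := Nat.one_le_two_pow
  rw [pP_eval]
  have h5 : 1 ≤ 2 ^ kA D * (8 * n + 1) * (2 * n + 1) :=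
    Nat.mul_pos (Nat.mul_pos (by positivity) (by omega)) (by omega)
  calc N ≤ (2 ^ (kP D * (l + 1) ^ 2) + 2) * (n + G) ^ G :=
        h.trans (Nat.mul_le_mul (Nat.add_le_add_right h2 2) h1)
    _ ≤ ((2 ^ kA D * (8 * n + 1) * (2 * n + 1) + 2) * 2 ^ (kP D * (l + 1) ^ 2)) *
        (n + G) ^ G := by
        refine Nat.mul_le_mul_right _ ?_
        rw [add_mul]
        exact Nat.add_le_add (Nat.le_mul_of_pos_left _ h5) (by omega)
    _ = (2 ^ kA D * (8 * n + 1) * (2 * n + 1) + 2) * (n + G) ^ G *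
        2 ^ (kP D * (l + 1) ^ 2) := by ring
    _ ≤ _ := Nat.mul_le_mul_right _ (Nat.le_add_right _ _)

theorem piv_small {D M n x y N L : ℕ} (hL : L ≤ (cst (D + 1)).1) (hn : n ≤ L) (hM : M ≤ L)
    (h : N ≤ bnd n M) : N ≤ (pP D).eval x * 2 ^ y := by
  have h1 : bnd n M ≤ (16 * (cst (D + 1)).1 + 16) ^ (Nat.size (cst (D + 1)).1 + 1) := by
    refine (bnd_le_pow hn hM).trans ?_
    have h1 : Nat.size L ≤ Nat.size (cst (D + 1)).1 := Nat.size_le_size hL
    exact (Nat.pow_le_pow_left (by omega) _).trans (Nat.pow_le_pow_right (by omega) (by omega))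
  rw [pP_eval]
  exact (h.trans (h1.trans (Nat.le_add_left _ _))).trans
    (Nat.le_mul_of_pos_right _ (by positivity))

end Pool.Agent.Y644.QW
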