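import Pool.Agent.Y644.QW.Hist
set_option autoImplicit false

/-!
# The bounds for the dimension and the number of rows after `G` relaxations
-/

namespace Pool.Agent.Y644.QW

open Finset Pool.Agent.Y644.QS Pool.Agent.H687R2.LLL Pool.Agent.NPC

variable {n : ℕ} {c : List ℤ} (hN : c.length = n + 1)

/-- the inclusion of the directions -/
noncomputable def inj : (Fin n → ℝ) →ₗ[ℝ] EuclideanSpace ℝ (Fin c.length) :=
  (eN hN).toLinearMap.comp (LinearMap.inl ℝ (Fin n → ℝ) ℝ)

theorem inj_apply (x : Fin n → ℝ) : inj hN x = eN hN (x, 0) := rfl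

theorem inj_inj : Function.Injective (inj hN) := fun x y h => by
  have := (eN hN).injective h
  exact congrArg Prod.fst this

theorem rf_tau_inj (x : Fin n → ℝ) : rf c.length (tau c) (inj hN x) = 0 := by
  rw [inj_apply, rf_tau hN]

theorem exists_inj {h : EuclideanSpace ℝ (Fin c.length)} (hτ : rf c.length (tau c) h = 0) :
    ∃ x, h = inj hN x := by
  obtain ⟨⟨x, t⟩, rfl⟩ := (eN hN).surjective h
  rw [rf_tau hN] at hτ
  subst hτ
  exact ⟨x, rfl⟩

theorem finrank_kerE_le (E : List (List ℤ)) :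
    Module.finrank ℝ (kerE c E) ≤ z (aL hN) Set.univ {r | r ∈ E} + 1 := by
  refine (finrank_kerE_cons E (tau c)).trans (Nat.add_le_add_right ?_ 1)
  have h1 : kerE c (tau c :: E) ≤ (Z (aL hN) Set.univ {r | r ∈ E}).map (inj hN) := by
    intro h hh
    obtain ⟨x, rfl⟩ := exists_inj hN (hh _ (by simp))
    exact ⟨x, ⟨fun j hj => absurd (Set.mem_univ j) hj, fun r hr =>
      hh r (List.mem_cons_of_mem _ hr)⟩, rfl⟩
  exact (Submodule.finrank_mono h1).trans (Submodule.finrank_map_le _ _)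

/-- the rows tight at an extreme ray -/
theorem z_ext {E I : List (List ℤ)} (hI : Len c.length I) {w : List ℤ}
    (hw : w.length = c.length) (h : Ext (rf c.length) E (jl c I) (lv c.length w)) :
    z (aL hN) Set.univ ({r | r ∈ E} ∪ {r | r ∈ I ∧ dot r w = 0}) ≤ 1 := by
  set S := Z (aL hN) Set.univ ({r | r ∈ E} ∪ {r | r ∈ I ∧ dot r w = 0}) with hS
  have key : ∀ x ∈ S, ∃ s : ℝ, inj hN x = s • lv c.length w := by
    intro x hx
    refine h.ker _ (fun r hr => hx.2 r (Or.inl hr)) fun r hr h0 => ?_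
    rcases mem_jl.1 hr with rfl | hr
    · rw [rf_negV, rf_tau_inj, neg_zero]
    · refine hx.2 r (Or.inr ⟨hr, ?_⟩)
      rw [rf_dot (hI r hr) hw] at h0
      exact_mod_cast h0
  by_cases hb : ∃ x0 ∈ S, x0 ≠ 0
  · obtain ⟨x0, h1, h2⟩ := hb
    obtain ⟨s0, hs0⟩ := key x0 h1
    have hne : s0 ≠ 0 := by
      rintro rfl
      rw [zero_smul] at hs0
      exact h2 (inj_inj hN (by rw [hs0, map_zero]))
    have h3 : S ≤ Submodule.span ℝ {x0} := by
      intro x hx
      obtain ⟨s, hs⟩ := key x hx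
      have : x = (s / s0) • x0 := by
        apply inj_inj hN
        rw [map_smul, hs, hs0, smul_smul, div_mul_cancel₀ _ hne]
      rw [this]
      exact Submodule.smul_mem _ _ (Submodule.mem_span_singleton_self _)
    refine (Submodule.finrank_mono h3).trans ?_
    exact (finrank_span_le_card ({x0} : Set (Fin n → ℝ))).trans (by simp)
  · push Not at hb
    have h3 : S = ⊥ := by
      rw [eq_bot_iff]
      intro x hx
      exact hb x hx
    change Module.finrank ℝ S ≤ 1
    rw [h3, finrank_bot]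
    omega

/-- all rows at a vertex -/
theorem z_vx {E I : List (List ℤ)} {v : List ℤ} (hv : Vx c E (jl c I) v) :
    z (aL hN) Set.univ {r | r ∈ E ∨ r ∈ I} = 0 := by
  have h3 : Z (aL hN) Set.univ {r | r ∈ E ∨ r ∈ I} = ⊥ := by
    rw [eq_bot_iff]
    intro x hx
    obtain ⟨s, hs⟩ := hv.ext.ker (inj hN x) (fun r hr => hx.2 r (Or.inl hr)) fun r hr _ => by
      rcases mem_jl.1 hr with rfl | hr
      · rw [rf_negV, rf_tau_inj, neg_zero]
      · exact hx.2 r (Or.inr hr)
    have h1 := rf_tau_inj hN x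
    rw [hs, map_smul, smul_eq_mul] at h1
    rcases mul_eq_zero.1 h1 with h | h
    · rw [h, zero_smul] at hs
      exact inj_inj hN (by rw [hs, map_zero])
    · exact absurd h hv.pos.ne'
  unfold z
  rw [h3, finrank_bot]

theorem z_exc {ρ : Type*} {a : ρ → (Fin n → ℝ) →ₗ[ℝ] ℝ} {X : Set (Fin n)} {U Rs : Set ρ}
    {Exc : Finset ρ} (h : U ⊆ Rs ∪ Exc) : z a X (U ∩ Rs) ≤ z a X U + Exc.card := by
  refine (z_union_finset Exc).trans (Nat.add_le_add_right (z_mono (le_refl X) ?_) _)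
  intro r hr
  rcases h hr with h | h
  · exact Or.inl ⟨hr, h⟩
  · exact Or.inr h

variable {hN} {W Rs : Set (List ℤ)} {Exc : Finset (List ℤ)} {X : Finset (Fin n)}
  {E I : List (List ℤ)} {v : List ℤ}

/-- the dimension after `G` relaxations -/
theorem dim_bound {D : ℕ} (hp : PN (aL hN) D (X : Set (Fin n)) Rs) (hW : W ⊆ Rs ∪ Exc)
    (h : Hs hN W (cst D).1 E I) (hv : Vx c E (jl c I) v) :
    z (aL hN) (X : Set (Fin n)) ({r | r ∈ E} ∩ Rs) ≤
      (cst D).2.1 * ((cst D).1 * (1 + Exc.card) + Exc.card) := by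
  obtain ⟨Eh, Th, Uh, hy, h1, h2, h3⟩ := h
  obtain ⟨s1, s2, s3⟩ := h1 _ le_rfl
  have h4 := hp.1 Eh Th Uh hy
  rw [s1, s3] at h4
  refine h4.trans (Nat.mul_le_mul_left _ (Nat.add_le_add ?_ ?_))
  · calc ∑ t ∈ range (cst D).1, z (aL hN) (X : Set (Fin n)) ((Eh t ∪ Th t) ∩ Rs)
        ≤ ∑ t ∈ range (cst D).1, (1 + Exc.card) := by
          refine Finset.sum_le_sum fun t ht => ?_
          refine (z_exc (Exc := Exc) fun r hr => hW (h3 t (Or.inl hr))).trans ?_
          refine Nat.add_le_add_right ?_ _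
          exact (z_mono (Set.subset_univ _) le_rfl).trans (h2 t (Finset.mem_range.1 ht))
      _ = (cst D).1 * (1 + Exc.card) := by
          rw [Finset.sum_const, Finset.card_range, smul_eq_mul]
  · have h5 : {r | r ∈ E ∨ r ∈ I} ⊆ W := fun r hr => h3 (cst D).1 (Or.inr (by rw [s3]; exact hr))
    refine (z_exc (Exc := Exc) (h5.trans hW)).trans ?_
    have h6 := z_mono (a := aL hN) (Set.subset_univ (X : Set (Fin n)))
      (le_refl {r | r ∈ E ∨ r ∈ I})
    rw [z_vx hN hv] at h6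
    omega

theorem dimLe_of_z {d : ℕ}
    (h : z (aL hN) (X : Set (Fin n)) ({r | r ∈ E} ∩ Rs) ≤ d) :
    DimLe c E (d + (n - X.card)) := by
  unfold DimLe
  refine (finrank_kerE_le hN E).trans ?_
  have h1 := z_cols (a := aL hN) (R := {r | r ∈ E}) X
  have h2 : z (aL hN) (X : Set (Fin n)) {r | r ∈ E} ≤
      z (aL hN) (X : Set (Fin n)) ({r | r ∈ E} ∩ Rs) :=
    z_mono (le_refl _) Set.inter_subset_left
  have h3 : (Finset.univ \ X).card = n - X.card := by
    rw [Finset.card_sdiff_of_subset (Finset.subset_univ _), Finset.card_univ, Fintype.card_fin]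
  omega

/-- the number of rows after `G` relaxations -/
theorem row_bound {D d : ℕ} (hp : PN (aL hN) D Set.univ Rs) (hW : W ⊆ Rs ∪ Exc)
    (hIW : ∀ r ∈ I, r ∈ W) (hE : Len c.length E) (hI : Len c.length I) (hnd : I.Nodup)
    (hl : ∀ r ∈ I, live c E r = true)
    (h : z (aL hN) Set.univ ({r | r ∈ E} ∩ Rs) ≤ d) :
    I.length ≤ (cst D).2.2 * d + Exc.card := by
  classical
  have h1 : I.toFinset.card = I.length := List.toFinset_card_of_nodup hnd
  have h2 : I.toFinset ⊆ (I.toFinset.filter fun r => r ∈ Rs) ∪ Exc := by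
    intro r hr
    rw [Finset.mem_union, Finset.mem_filter]
    rcases hW (hIW r (List.mem_toFinset.1 hr)) with h | h
    · exact Or.inl ⟨hr, h⟩
    · exact Or.inr h
  have h3 := (Finset.card_le_card h2).trans (Finset.card_union_le _ _)
  have h4 := hp.2 {r | r ∈ E} (I.toFinset.filter fun r => r ∈ Rs) fun r hr => by
    rw [Finset.mem_filter, List.mem_toFinset] at hr
    obtain ⟨h, e1, e2, e3⟩ := (live_iff hE (hI r hr.1)).1 (hl r hr.1)
    obtain ⟨x, rfl⟩ := exists_inj hN e2
    exact ⟨hr.2, x, ⟨fun j hj => absurd (Set.mem_univ j) hj, fun q hq => e1 q hq.1⟩, e3.ne'⟩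
  have h5 := Nat.mul_le_mul_left (cst D).2.2 h
  omega

end Pool.Agent.Y644.QW
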