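import Pool.Agent.Y644.QW.Struct
import Pool.Agent.Y644.QW.WMach
set_option autoImplicit false

/-!
# The history of a call, and the resulting bounds for the dimension and the number of rows
-/

namespace Pool.Agent.Y644.QW

open Pool.Agent.Y644.QS Pool.Agent.H687R2.LLL Pool.Agent.NPC

variable {n : ℕ} {c : List ℤ} (hN : c.length = n + 1)

/-- `s` relaxations have been made; `W` contains all rows -/
def Hs (W : Set (List ℤ)) (s : ℕ) (E I : List (List ℤ)) : Prop :=
  ∃ Eh Th Uh : ℕ → Set (List ℤ), Hyp Eh Th Uh ∧
    (∀ t, s ≤ t → Eh t = {r | r ∈ E} ∧ Th t = ∅ ∧ Uh t = {r | r ∈ E ∨ r ∈ I}) ∧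
    (∀ t < s, z (aL hN) Set.univ (Eh t ∪ Th t) ≤ 1) ∧ ∀ t, Eh t ∪ Th t ∪ Uh t ⊆ W

variable {hN} {W : Set (List ℤ)} {s : ℕ} {E I : List (List ℤ)}

theorem Hs.start (hW : ∀ r ∈ I, r ∈ W) : Hs hN W 0 [] I := by
  refine ⟨fun _ => ∅, fun _ => ∅, fun _ => {r | r ∈ I}, ⟨fun _ => le_rfl, fun _ => le_rfl,
    fun _ => Set.empty_subset _, fun _ => Set.empty_disjoint _⟩, fun t _ => ⟨?_, rfl, ?_⟩,
    fun t ht => absurd ht (Nat.not_lt_zero t), fun t r hr => ?_⟩
  · ext r; simp
  · ext r; simp
  · rcases hr with (hr | hr) | hr
    · exact absurd hr (Set.notMem_empty r)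
    · exact absurd hr (Set.notMem_empty r)
    · exact hW r hr

theorem Hs.shrink (h : Hs hN W s E I) {E' I' : List (List ℤ)} (hE : ∀ r ∈ E, r ∈ E')
    (hI : ∀ r, r ∈ E' ∨ r ∈ I' → r ∈ E ∨ r ∈ I) : Hs hN W s E' I' := by
  obtain ⟨Eh, Th, Uh, hy, h1, h2, h3⟩ := h
  refine ⟨fun t => if t < s then Eh t else {r | r ∈ E'}, Th,
    fun t => if t < s then Uh t else {r | r ∈ E' ∨ r ∈ I'}, ⟨fun t => ?_, fun t => ?_,
    fun t => ?_, fun t => ?_⟩, fun t ht => ⟨?_, (h1 t ht).2.1, ?_⟩, fun t ht => ?_, fun t => ?_⟩
  · have := hy.E_mono t
    by_cases a : t + 1 < s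
    · have b : t < s := by omega
      simp only [a, b, if_true]
      exact this
    · by_cases b : t < s
      · simp only [a, b, if_true, if_false]
        rw [(h1 (t + 1) (by omega)).1] at this
        exact this.trans hE
      · simp only [a, b, if_false]
        exact le_rfl
  · have := hy.U_anti t
    by_cases a : t + 1 < s
    · have b : t < s := by omega
      simp only [a, b, if_true]
      exact this
    · by_cases b : t < s
      · simp only [a, b, if_true, if_false]
        rw [(h1 (t + 1) (by omega)).2.2] at this
        exact le_trans (fun r hr => hI r hr) this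
      · simp only [a, b, if_false]
        exact le_rfl
  · by_cases b : t < s
    · simp only [b, if_true]
      exact hy.T_sub t
    · rw [(h1 t (by omega)).2.1]
      exact Set.empty_subset _
  · by_cases b : t < s
    · have := hy.T_disj t
      by_cases a : t + 1 < s
      · simp only [a, if_true]
        exact this
      · simp only [a, if_false]
        rw [(h1 (t + 1) (by omega)).2.2] at this
        exact this.mono_right fun r hr => hI r hr
    · rw [(h1 t (by omega)).2.1]
      exact Set.empty_disjoint _
  · beta_reduce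
    rw [if_neg (by omega)]
  · beta_reduce
    rw [if_neg (by omega)]
  · simp only [ht, if_true]
    exact h2 t ht
  · by_cases b : t < s
    · simp only [b, if_true]
      exact h3 t
    · simp only [b, if_false]
      have h4 := h3 t
      obtain ⟨a1, a2, a3⟩ := h1 t (by omega)
      rw [a2] at h4 ⊢
      rintro r ((hr | hr) | hr)
      · exact h4 (Or.inr (by rw [a3]; exact hI r (Or.inl hr)))
      · exact absurd hr (Set.notMem_empty r)
      · exact h4 (Or.inr (by rw [a3]; exact hI r hr))

theorem Hs.step (h : Hs hN W s E I) {T : Set (List ℤ)} {I' : List (List ℤ)}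
    (hT : ∀ r ∈ T, r ∈ I) (hTE : ∀ r ∈ T, r ∉ E) (hI : ∀ r ∈ I', r ∈ I ∧ r ∉ T)
    (hz : z (aL hN) Set.univ ({r | r ∈ E} ∪ T) ≤ 1) : Hs hN W (s + 1) E I' := by
  obtain ⟨Eh, Th, Uh, hy, h1, h2, h3⟩ := h
  obtain ⟨s1, s2, s3⟩ := h1 s le_rfl
  have hW : ∀ r, r ∈ E ∨ r ∈ I → r ∈ W := fun r hr => h3 s (Or.inr (by rw [s3]; exact hr))
  refine ⟨fun t => if t < s + 1 then Eh t else {r | r ∈ E},
    fun t => if t = s then T else Th t,
    fun t => if t < s + 1 then Uh t else {r | r ∈ E ∨ r ∈ I'}, ⟨fun t => ?_, fun t => ?_,
    fun t => ?_, fun t => ?_⟩, fun t ht => ⟨?_, ?_, ?_⟩, fun t ht => ?_, fun t => ?_⟩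
  · have := hy.E_mono t
    by_cases a : t + 1 < s + 1
    · have b : t < s + 1 := by omega
      simp only [a, b, if_true]
      exact this
    · by_cases b : t < s + 1
      · simp only [a, b, if_true, if_false]
        rw [(h1 (t + 1) (by omega)).1] at this
        exact this
      · simp only [a, b, if_false]
        exact le_rfl
  · have := hy.U_anti t
    by_cases a : t + 1 < s + 1
    · have b : t < s + 1 := by omega
      simp only [a, b, if_true]
      exact this
    · by_cases b : t < s + 1
      · simp only [a, b, if_true, if_false]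
        rw [(h1 (t + 1) (by omega)).2.2] at this
        refine le_trans (fun r hr => ?_) this
        rcases hr with hr | hr
        · exact Or.inl hr
        · exact Or.inr (hI r hr).1
      · simp only [a, b, if_false]
        exact le_rfl
  · by_cases b : t = s
    · subst b
      rw [if_pos rfl, if_pos (by omega), s3]
      exact fun r hr => Or.inr (hT r hr)
    · simp only [b, if_false]
      by_cases a : t < s + 1
      · simp only [a, if_true]
        exact hy.T_sub t
      · rw [(h1 t (by omega)).2.1]
        exact Set.empty_subset _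
  · by_cases b : t = s
    · subst b
      rw [if_pos rfl, if_neg (by omega)]
      rw [Set.disjoint_left]
      rintro r hr (h | h)
      · exact hTE r hr h
      · exact (hI r h).2 hr
    · simp only [b, if_false]
      by_cases a : t < s
      · have := hy.T_disj t
        rw [if_pos (by omega)]
        exact this
      · rw [(h1 t (by omega)).2.1]
        exact Set.empty_disjoint _
  · beta_reduce
    rw [if_neg (by omega)]
  · beta_reduce
    rw [if_neg (by omega)]
    exact (h1 t (by omega)).2.1
  · beta_reduce
    rw [if_neg (by omega)]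
  · by_cases b : t = s
    · subst b
      beta_reduce
      rw [if_pos (by omega), if_pos rfl, s1]
      exact hz
    · simp only [b, if_false]
      rw [if_pos ht]
      exact h2 t (by omega)
  · by_cases b : t = s
    · subst b
      beta_reduce
      rw [if_pos (by omega), if_pos rfl, if_pos (by omega), s1, s3]
      rintro r ((hr | hr) | hr)
      · exact hW r (Or.inl hr)
      · exact hW r (Or.inr (hT r hr))
      · exact hW r hr
    · simp only [b, if_false]
      by_cases a : t < s + 1
      · simp only [a, if_true]
        exact h3 t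
      · simp only [a, if_false]
        rw [(h1 t (by omega)).2.1]
        rintro r ((hr | hr) | hr)
        · exact hW r (Or.inl hr)
        · exact absurd hr (Set.notMem_empty r)
        · rcases hr with hr | hr
          · exact hW r (Or.inl hr)
          · exact hW r (Or.inr (hI r hr).1)

end Pool.Agent.Y644.QW
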