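import Mathlib
set_option autoImplicit false

/-!
# Linear algebra for systems of rows with a nested block structure

`Z a X R` is the space of the vectors supported on the columns `X` on which the rows `R` vanish.
`Claim` bounds the dimension of a face after `G` steps, in each of which the rows tight at a vertex
are removed.
-/

namespace Pool.Agent.Y644.QW

open Finset

variable {n : ℕ} {ρ : Type*} (a : ρ → (Fin n → ℝ) →ₗ[ℝ] ℝ)

/-- vectors supported on `X`, on which the rows `R` vanish -/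
def Z (X : Set (Fin n)) (R : Set ρ) : Submodule ℝ (Fin n → ℝ) where
  carrier := {x | (∀ j, j ∉ X → x j = 0) ∧ ∀ r ∈ R, a r x = 0}
  add_mem' := fun {x y} hx hy => ⟨fun j hj => by simp [hx.1 j hj, hy.1 j hj],
    fun r hr => by rw [map_add, hx.2 r hr, hy.2 r hr, add_zero]⟩
  zero_mem' := ⟨fun _ _ => rfl, fun _ _ => map_zero _⟩
  smul_mem' := fun s x hx => ⟨fun j hj => by simp [hx.1 j hj],
    fun r hr => by rw [map_smul, hx.2 r hr, smul_zero]⟩

/-- the dimension of `Z a X R` -/
noncomputable def z (X : Set (Fin n)) (R : Set ρ) : ℕ := Module.finrank ℝ (Z a X R)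

variable {a} {X X' X₁ X₂ : Set (Fin n)} {R R' R₁ R₂ : Set ρ}

theorem mem_Z {x : Fin n → ℝ} : x ∈ Z a X R ↔ (∀ j, j ∉ X → x j = 0) ∧ ∀ r ∈ R, a r x = 0 :=
  Iff.rfl

theorem z_mono (hX : X ⊆ X') (hR : R' ⊆ R) : z a X R ≤ z a X' R' :=
  Submodule.finrank_mono fun _ hx => ⟨fun j hj => hx.1 j fun h => hj (hX h),
    fun r hr => hx.2 r (hR hr)⟩

/-- dimension of the kernel of one functional -/
theorem finrank_ker_le (S S' : Submodule ℝ (Fin n → ℝ)) (g : (Fin n → ℝ) →ₗ[ℝ] ℝ)
    (h : ∀ x ∈ S, g x = 0 → x ∈ S') : Module.finrank ℝ S ≤ Module.finrank ℝ S' + 1 := by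
  set f : S →ₗ[ℝ] ℝ := g.comp S.subtype with hf
  have h1 := LinearMap.finrank_range_add_finrank_ker f
  have h2 : Module.finrank ℝ (LinearMap.range f) ≤ 1 := by
    have := Submodule.finrank_le (LinearMap.range f)
    rwa [Module.finrank_self] at this
  have h3 : Module.finrank ℝ (LinearMap.ker f) ≤ Module.finrank ℝ S' := by
    rw [← Submodule.finrank_map_subtype_eq]
    refine Submodule.finrank_mono ?_
    rintro x ⟨y, hy, rfl⟩
    exact h y y.2 hy
  omega

theorem z_insert (r : ρ) : z a X R ≤ z a X (insert r R) + 1 := by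
  refine finrank_ker_le _ _ (a r) fun x hx h0 => ⟨hx.1, fun q hq => ?_⟩
  rcases Set.mem_insert_iff.1 hq with rfl | hq
  · exact h0
  · exact hx.2 q hq

theorem z_union_finset (F : Finset ρ) : z a X R ≤ z a X (R ∪ F) + F.card := by
  classical
  induction F using Finset.induction_on with
  | empty => simp
  | insert r F hr ih =>
    have h1 := z_insert (a := a) (X := X) (R := R ∪ F) r
    have h2 : insert r (R ∪ (F : Set ρ)) = R ∪ ((insert r F : Finset ρ) : Set ρ) := by
      rw [Finset.coe_insert, Set.union_insert]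
    rw [h2] at h1
    rw [Finset.card_insert_of_notMem hr]
    omega

theorem z_cols (X : Finset (Fin n)) : z a Set.univ R ≤ z a X R + (Finset.univ \ X).card := by
  classical
  have key : ∀ Y : Finset (Fin n), z a Set.univ R ≤ z a (Set.univ \ Y) R + Y.card := by
    intro Y
    induction Y using Finset.induction_on with
    | empty => simp
    | insert j Y hj ih =>
      have h1 : z a (Set.univ \ Y) R ≤ z a (Set.univ \ (insert j Y : Finset (Fin n))) R + 1 := by
        refine finrank_ker_le _ _ (LinearMap.proj j) fun x hx h0 => ⟨fun i hi => ?_, hx.2⟩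
        by_cases hij : i = j
        · subst hij; exact h0
        · refine hx.1 i fun h => hi ?_
          simp only [Set.mem_sdiff, Set.mem_univ, true_and, Finset.mem_coe,
            Finset.mem_insert] at h ⊢
          tauto
      rw [Finset.card_insert_of_notMem hj]
      omega
  have := key (Finset.univ \ X)
  have e : (Set.univ \ ((Finset.univ \ X : Finset (Fin n)) : Set (Fin n))) = X := by
    ext j; simp
  rwa [e] at this

/-- the rows `R` vanish on the vectors supported on `X` -/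
def Off (a : ρ → (Fin n → ℝ) →ₗ[ℝ] ℝ) (R : Set ρ) (X : Set (Fin n)) : Prop :=
  ∀ r ∈ R, ∀ x : Fin n → ℝ, (∀ j, j ∉ X → x j = 0) → a r x = 0

theorem Off.mono (h : Off a R X) (hR : R' ⊆ R) : Off a R' X := fun r hr => h r (hR hr)

theorem z_off (h : Off a R X) : z a X R = z a X ∅ := by
  have e : Z a X R = Z a X ∅ := by
    ext x
    exact ⟨fun hx => ⟨hx.1, fun r hr => absurd hr (Set.notMem_empty r)⟩,
      fun hx => ⟨hx.1, fun r hr => h r hr x hx.1⟩⟩
  unfold z
  rw [e]

/-- dimensions add up -/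
theorem z_split (hX : Disjoint X₁ X₂) (h₁ : Off a R₁ X₂) (h₂ : Off a R₂ X₁) :
    z a (X₁ ∪ X₂) (R₁ ∪ R₂) = z a X₁ R₁ + z a X₂ R₂ := by
  classical
  have hinf : Z a X₁ R₁ ⊓ Z a X₂ R₂ = ⊥ := by
    rw [eq_bot_iff]
    rintro x ⟨h1, h2⟩
    rw [Submodule.mem_bot]
    funext j
    by_cases hj : j ∈ X₁
    · exact h2.1 j fun h => Set.disjoint_left.1 hX hj h
    · exact h1.1 j hj
  have hsup : Z a X₁ R₁ ⊔ Z a X₂ R₂ = Z a (X₁ ∪ X₂) (R₁ ∪ R₂) := by
    apply le_antisymm
    · refine sup_le ?_ ?_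
      · intro x hx
        refine ⟨fun j hj => hx.1 j fun h => hj (Or.inl h), fun r hr => ?_⟩
        rcases hr with hr | hr
        · exact hx.2 r hr
        · exact h₂ r hr x hx.1
      · intro x hx
        refine ⟨fun j hj => hx.1 j fun h => hj (Or.inr h), fun r hr => ?_⟩
        rcases hr with hr | hr
        · exact h₁ r hr x hx.1
        · exact hx.2 r hr
    · intro x hx
      set x₁ : Fin n → ℝ := fun j => if j ∈ X₁ then x j else 0 with hx₁
      set x₂ : Fin n → ℝ := fun j => if j ∈ X₁ then 0 else x j with hx₂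
      have hs : x = x₁ + x₂ := by
        funext j
        by_cases hj : j ∈ X₁ <;> simp [hx₁, hx₂, hj]
      have s1 : ∀ j, j ∉ X₁ → x₁ j = 0 := fun j hj => by simp [hx₁, hj]
      have s2 : ∀ j, j ∉ X₂ → x₂ j = 0 := fun j hj => by
        by_cases h : j ∈ X₁
        · simp [hx₂, h]
        · simp only [hx₂, h, if_false]
          exact hx.1 j (by simp [h, hj])
      refine Submodule.mem_sup.2 ⟨x₁, ⟨s1, fun r hr => ?_⟩, x₂, ⟨s2, fun r hr => ?_⟩, hs.symm⟩
      · have h3 := hx.2 r (Or.inl hr)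
        rw [hs, map_add, h₁ r hr x₂ s2, add_zero] at h3
        exact h3
      · have h3 := hx.2 r (Or.inr hr)
        rw [hs, map_add, h₂ r hr x₁ s1, zero_add] at h3
        exact h3
  have := Submodule.finrank_sup_add_finrank_inf_eq (Z a X₁ R₁) (Z a X₂ R₂)
  rw [hsup, hinf, finrank_bot] at this
  unfold z
  omega

/-! ### The number of nonconstant rows -/

/-- on the face with the equations `E`, the number of rows which do not vanish is at most `k`
times the dimension -/
def LiveLe (a : ρ → (Fin n → ℝ) →ₗ[ℝ] ℝ) (k : ℕ) (X : Set (Fin n)) (R : Set ρ) : Prop :=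
  ∀ (E : Set ρ) (F : Finset ρ), (∀ r ∈ F, r ∈ R ∧ ∃ x ∈ Z a X (E ∩ R), a r x ≠ 0) →
    F.card ≤ k * z a X (E ∩ R)

/-- a history: in step `t` the rows `T t` are removed -/
structure Hyp (E T U : ℕ → Set ρ) : Prop where
  E_mono : ∀ t, E t ⊆ E (t + 1)
  U_anti : ∀ t, U (t + 1) ⊆ U t
  T_sub : ∀ t, T t ⊆ U t
  T_disj : ∀ t, Disjoint (T t) (U (t + 1))

/-- the bound for the dimension after `G` steps -/
def Claim (a : ρ → (Fin n → ℝ) →ₗ[ℝ] ℝ) (G K : ℕ) (X : Set (Fin n)) (R : Set ρ) : Prop :=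
  ∀ E T U : ℕ → Set ρ, Hyp E T U → z a X (E G ∩ R) ≤
    K * (∑ t ∈ range G, z a X ((E t ∪ T t) ∩ R) + z a X (U G ∩ R))

theorem Hyp.E_le {E T U : ℕ → Set ρ} (h : Hyp E T U) {s t : ℕ} (hst : s ≤ t) : E s ⊆ E t :=
  monotone_nat_of_le_succ (f := E) h.E_mono hst

theorem Hyp.U_le {E T U : ℕ → Set ρ} (h : Hyp E T U) {s t : ℕ} (hst : s ≤ t) : U t ⊆ U s :=
  antitone_nat_of_succ_le (f := U) h.U_anti hst

theorem LiveLe.mono {k k' : ℕ} (h : LiveLe a k X R) (hk : k ≤ k') : LiveLe a k' X R :=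
  fun E F hF => (h E F hF).trans (Nat.mul_le_mul_right _ hk)

theorem Claim.mono {G G' K K' : ℕ} (h : Claim a G K X R) (hG : G ≤ G') (hK : K ≤ K') :
    Claim a G' K' X R := by
  intro E T U hy
  have h1 : z a X (E G' ∩ R) ≤ z a X (E G ∩ R) :=
    z_mono (le_refl X) (Set.inter_subset_inter_left _ (hy.E_le hG))
  have h2 : z a X (U G ∩ R) ≤ z a X (U G' ∩ R) :=
    z_mono (le_refl X) (Set.inter_subset_inter_left _ (hy.U_le hG))
  have h3 : ∑ t ∈ range G, z a X ((E t ∪ T t) ∩ R) ≤ ∑ t ∈ range G', z a X ((E t ∪ T t) ∩ R) :=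
    Finset.sum_le_sum_of_subset (Finset.range_mono hG)
  exact h1.trans ((h E T U hy).trans (Nat.mul_le_mul hK (by omega)))

/-- rows which vanish -/
theorem claim_off (h : Off a R X) : Claim a 0 1 X R ∧ LiveLe a 0 X R := by
  constructor
  · intro E T U _
    rw [z_off (h.mono Set.inter_subset_right), z_off (h.mono Set.inter_subset_right)]
    simp
  · intro E F hF
    rw [Nat.le_zero.1 (show F.card ≤ 0 from ?_)]
    · exact Nat.zero_le _
    · rw [Nat.le_zero, Finset.card_eq_zero, Finset.eq_empty_iff_forall_notMem]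
      intro r hr
      obtain ⟨h1, x, hx, h2⟩ := hF r hr
      exact h2 (h r h1 x hx.1)

theorem claim_union {G K k : ℕ} (hX : Disjoint X₁ X₂) (h₁ : Off a R₁ X₂) (h₂ : Off a R₂ X₁)
    (c₁ : Claim a G K X₁ R₁ ∧ LiveLe a k X₁ R₁) (c₂ : Claim a G K X₂ R₂ ∧ LiveLe a k X₂ R₂) :
    Claim a G K (X₁ ∪ X₂) (R₁ ∪ R₂) ∧ LiveLe a k (X₁ ∪ X₂) (R₁ ∪ R₂) := by
  classical
  have hz : ∀ S : Set ρ, z a (X₁ ∪ X₂) (S ∩ (R₁ ∪ R₂)) = z a X₁ (S ∩ R₁) + z a X₂ (S ∩ R₂) := by
    intro S
    rw [Set.inter_union_distrib_left]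
    exact z_split hX (h₁.mono Set.inter_subset_right) (h₂.mono Set.inter_subset_right)
  constructor
  · intro E T U hy
    have e1 := c₁.1 E T U hy
    have e2 := c₂.1 E T U hy
    rw [hz, hz]
    have e3 : ∑ t ∈ range G, z a (X₁ ∪ X₂) ((E t ∪ T t) ∩ (R₁ ∪ R₂)) =
        ∑ t ∈ range G, z a X₁ ((E t ∪ T t) ∩ R₁) + ∑ t ∈ range G, z a X₂ ((E t ∪ T t) ∩ R₂) := by
      rw [← Finset.sum_add_distrib]
      exact Finset.sum_congr rfl fun t _ => hz _
    rw [e3]
    nlinarith
  · intro E F hF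
    rw [hz]
    -- split the rows
    set F₁ := F.filter fun r => r ∈ R₁ ∧ ∃ x ∈ Z a X₁ (E ∩ R₁), a r x ≠ 0 with hF₁
    set F₂ := F.filter fun r => r ∈ R₂ ∧ ∃ x ∈ Z a X₂ (E ∩ R₂), a r x ≠ 0 with hF₂
    have hsub : F ⊆ F₁ ∪ F₂ := by
      intro r hr
      obtain ⟨h3, x, hx, h4⟩ := hF r hr
      set x₁ : Fin n → ℝ := fun j => if j ∈ X₁ then x j else 0 with hx₁
      set x₂ : Fin n → ℝ := fun j => if j ∈ X₁ then 0 else x j with hx₂
      have hs : x = x₁ + x₂ := by
        funext j
        by_cases hj : j ∈ X₁ <;> simp [hx₁, hx₂, hj]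
      have s1 : ∀ j, j ∉ X₁ → x₁ j = 0 := fun j hj => by simp [hx₁, hj]
      have s2 : ∀ j, j ∉ X₂ → x₂ j = 0 := fun j hj => by
        by_cases h : j ∈ X₁
        · simp [hx₂, h]
        · simp only [hx₂, h, if_false]
          exact hx.1 j (by simp [h, hj])
      have m1 : x₁ ∈ Z a X₁ (E ∩ R₁) := ⟨s1, fun q hq => by
        have h5 := hx.2 q ⟨hq.1, Or.inl hq.2⟩
        rw [hs, map_add, h₁ q hq.2 x₂ s2, add_zero] at h5
        exact h5⟩
      have m2 : x₂ ∈ Z a X₂ (E ∩ R₂) := ⟨s2, fun q hq => by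
        have h5 := hx.2 q ⟨hq.1, Or.inr hq.2⟩
        rw [hs, map_add, h₂ q hq.2 x₁ s1, zero_add] at h5
        exact h5⟩
      rw [Finset.mem_union]
      rcases h3 with h3 | h3
      · left
        refine Finset.mem_filter.2 ⟨hr, h3, x₁, m1, ?_⟩
        rw [hs, map_add, h₁ r h3 x₂ s2, add_zero] at h4
        exact h4
      · right
        refine Finset.mem_filter.2 ⟨hr, h3, x₂, m2, ?_⟩
        rw [hs, map_add, h₂ r h3 x₁ s1, zero_add] at h4
        exact h4
    have e1 := c₁.2 E F₁ fun r hr => (Finset.mem_filter.1 hr).2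
    have e2 := c₂.2 E F₂ fun r hr => (Finset.mem_filter.1 hr).2
    have e3 := (Finset.card_le_card hsub).trans (Finset.card_union_le _ _)
    rw [Nat.mul_add]
    omega

theorem inter_insert_sub (S : Set ρ) (r : ρ) : S ∩ insert r R ⊆ insert r (S ∩ R) := by
  rintro q ⟨h1, h2⟩
  rcases Set.mem_insert_iff.1 h2 with rfl | h2
  · exact Set.mem_insert _ _
  · exact Set.mem_insert_of_mem _ ⟨h1, h2⟩

/-- adding one row costs at most one dimension -/
theorem z_add_row (S : Set ρ) (r : ρ) : z a X (S ∩ R) ≤ z a X (S ∩ insert r R) + 1 :=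
  (z_insert r).trans (Nat.add_le_add_right (z_mono (le_refl X) (inter_insert_sub S r)) 1)

theorem live_add {k : ℕ} (h : LiveLe a k X R) (r : ρ) : LiveLe a (2 * k + 1) X (insert r R) := by
  classical
  intro E F hF
  by_cases h0 : z a X (E ∩ insert r R) = 0
  · -- the face is a point
    have h1 : Z a X (E ∩ insert r R) = ⊥ := Submodule.finrank_eq_zero.1 h0
    have h2 : F = ∅ := by
      rw [Finset.eq_empty_iff_forall_notMem]
      intro q hq
      obtain ⟨-, x, hx, h3⟩ := hF q hq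
      rw [h1, Submodule.mem_bot] at hx
      rw [hx, map_zero] at h3
      exact h3 rfl
    rw [h2]; simp
  · have h1 := h E (F.erase r) fun q hq => by
      obtain ⟨hne, hq⟩ := Finset.mem_erase.1 hq
      obtain ⟨h2, x, hx, h3⟩ := hF q hq
      refine ⟨(Set.mem_insert_iff.1 h2).resolve_left hne, x, ?_, h3⟩
      exact ⟨hx.1, fun p hp => hx.2 p ⟨hp.1, Set.mem_insert_of_mem _ hp.2⟩⟩
    have h2 := z_add_row (a := a) (X := X) (R := R) E r
    have h3 : F.card ≤ (F.erase r).card + 1 := by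
      have := Finset.pred_card_le_card_erase (s := F) (a := r)
      omega
    have h4 : 1 ≤ z a X (E ∩ insert r R) := Nat.pos_of_ne_zero h0
    nlinarith [Nat.mul_le_mul_left k h2]

/-- adding a row -/
theorem claim_add {G K k : ℕ} (hC : Claim a G K X R ∧ LiveLe a k X R) (r : ρ) :
    Claim a (G + ((2 * k + 1) * (K * (G + 1)) + 1)) (K * (G + 2)) X (insert r R) ∧
      LiveLe a (2 * k + 1) X (insert r R) := by
  classical
  refine ⟨?_, live_add hC.2 r⟩
  intro E T U hy
  set s := G + ((2 * k + 1) * (K * (G + 1)) + 1) with hs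
  set e := ∑ t ∈ range s, z a X ((E t ∪ T t) ∩ insert r R) with he
  set p := z a X (U s ∩ insert r R) with hp
  have hGs : G ≤ s := by omega
  -- the dimension after `G` steps
  have h1 : z a X (E G ∩ R) ≤ K * (e + G + p + 1) := by
    refine (hC.1 E T U hy).trans (Nat.mul_le_mul_left _ ?_)
    have h2 : ∑ t ∈ range G, z a X ((E t ∪ T t) ∩ R) ≤ e + G := by
      calc ∑ t ∈ range G, z a X ((E t ∪ T t) ∩ R)
          ≤ ∑ t ∈ range G, (z a X ((E t ∪ T t) ∩ insert r R) + 1) :=
            Finset.sum_le_sum fun t _ => z_add_row _ r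
        _ = ∑ t ∈ range G, z a X ((E t ∪ T t) ∩ insert r R) + G := by
            rw [Finset.sum_add_distrib]; simp
        _ ≤ e + G := Nat.add_le_add_right
            (Finset.sum_le_sum_of_subset (Finset.range_mono hGs)) _
    have h3 : z a X (U G ∩ R) ≤ p + 1 := by
      refine (z_add_row (U G) r).trans (Nat.add_le_add_right ?_ 1)
      exact z_mono (le_refl X) (Set.inter_subset_inter_left _ (hy.U_le hGs))
    omega
  have h4 : ∀ t, G ≤ t → z a X (E t ∩ insert r R) ≤ z a X (E G ∩ R) := fun t ht =>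
    z_mono (le_refl X) fun q hq => ⟨hy.E_le ht hq.1, Set.mem_insert_of_mem _ hq.2⟩
  by_cases hep : e + p = 0
  · -- no defects: the face is a point
    have he0 : e = 0 := by omega
    by_contra hcon
    have hpos : 0 < z a X (E s ∩ insert r R) := by
      rcases Nat.eq_zero_or_pos (z a X (E s ∩ insert r R)) with h | h
      · rw [h] at hcon; exact absurd (Nat.zero_le _) hcon
      · exact h
    have hrow : ∀ t, ∃ q, G ≤ t → t < s → q ∈ T t ∧ q ∈ insert r R ∧
        ∃ x ∈ Z a X (E t ∩ insert r R), a q x ≠ 0 := by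
      intro t
      by_cases ht : G ≤ t
      swap
      · exact ⟨r, fun h => absurd h ht⟩
      by_cases hts : t < s
      swap
      · exact ⟨r, fun _ h => absurd h hts⟩
      have hex : ∃ q ∈ T t, q ∈ insert r R ∧ ∃ x ∈ Z a X (E t ∩ insert r R), a q x ≠ 0 := by
        by_contra hno
        push Not at hno
        have h5 : z a X ((E t ∪ T t) ∩ insert r R) = 0 := by
          have := Finset.single_le_sum (f := fun t => z a X ((E t ∪ T t) ∩ insert r R))
            (fun i _ => Nat.zero_le _) (Finset.mem_range.2 hts)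
          rw [← he, he0] at this
          exact Nat.le_zero.1 this
        have h6 : z a X (E t ∩ insert r R) ≤ z a X ((E t ∪ T t) ∩ insert r R) := by
          refine Submodule.finrank_mono fun x hx => ⟨hx.1, fun q hq => ?_⟩
          rcases hq.1 with h | h
          · exact hx.2 q ⟨h, hq.2⟩
          · exact hno q h hq.2 x hx
        have h7 : z a X (E s ∩ insert r R) ≤ z a X (E t ∩ insert r R) :=
          z_mono (le_refl X) (Set.inter_subset_inter_left _ (hy.E_le hts.le))
        omega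
      obtain ⟨q, h5, h6, h7⟩ := hex
      exact ⟨q, fun _ _ => ⟨h5, h6, h7⟩⟩
    choose q hq using hrow
    have hq1 : ∀ t, G ≤ t → t < s → q t ∈ T t := fun t h h' => (hq t h h').1
    have hq2 : ∀ t, G ≤ t → t < s → q t ∈ insert r R := fun t h h' => (hq t h h').2.1
    have hq3 : ∀ t, G ≤ t → t < s → ∃ x ∈ Z a X (E t ∩ insert r R), a (q t) x ≠ 0 :=
      fun t h h' => (hq t h h').2.2
    set F := (Finset.Ico G s).image q with hF
    have hinj : Set.InjOn q (Finset.Ico G s : Finset ℕ) := by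
      have key : ∀ t u, G ≤ t → t < u → u < s → q t ≠ q u := by
        intro t u h5 h6 h7 heq
        have h8 := hq1 t h5 (by omega)
        have h9 : q u ∈ U (t + 1) := hy.U_le (show t + 1 ≤ u by omega) (hy.T_sub u (hq1 u (by omega) h7))
        rw [← heq] at h9
        exact Set.disjoint_left.1 (hy.T_disj t) h8 h9
      intro t ht u hu heq
      rw [Finset.mem_coe, Finset.mem_Ico] at ht hu
      rcases lt_trichotomy t u with h | h | h
      · exact absurd heq (key t u ht.1 h hu.2)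
      · exact h
      · exact absurd heq.symm (key u t hu.1 h ht.2)
    have hcard : F.card = s - G := by
      rw [hF, Finset.card_image_of_injOn hinj, Nat.card_Ico]
    have hlive := live_add hC.2 r (E G) F fun p hp => by
      obtain ⟨t, ht, rfl⟩ := Finset.mem_image.1 hp
      rw [Finset.mem_Ico] at ht
      obtain ⟨x, hx, h5⟩ := hq3 t ht.1 ht.2
      exact ⟨hq2 t ht.1 ht.2, x, ⟨hx.1, fun o ho => hx.2 o ⟨hy.E_le ht.1 ho.1, ho.2⟩⟩, h5⟩
    have h5 := h4 G le_rfl
    have h6 : z a X (E G ∩ insert r R) ≤ K * (G + 1) := by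
      refine h5.trans (h1.trans (Nat.mul_le_mul_left _ (by omega)))
    have h7 := Nat.mul_le_mul_left (2 * k + 1) h6
    omega
  · have h5 := h4 s hGs
    refine h5.trans (h1.trans ?_)
    rw [Nat.mul_assoc]
    refine Nat.mul_le_mul_left _ ?_
    have h6 : 1 ≤ e + p := by omega
    nlinarith

end Pool.Agent.Y644.QW
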