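import Pool.Agent.Y644.QS.Seq
set_option autoImplicit false

/-!
# An optimal extreme ray, and the live rows
-/

namespace Pool.Agent.Y644.QW

open Pool.Agent.Y644.QS Pool.Agent.H687R2.LLL Pool.Agent.NPC

/-- the threshold functional just below the optimum -/
def topT (c : List ℤ) (E J : List (List ℤ)) : List ℤ :=
  thr c (kpar c E J) (tsearch c E J (kpar c E J))

/-- an optimal vertex or ray -/
def optw (c : List ℤ) (E J : List (List ℤ)) : List ℤ :=
  face c (greedy c E J (topT c E J)) J (topT c E J)

/-- is the row nonconstant on the face with the equations `E`? -/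
def live (c : List ℤ) (E : List (List ℤ)) (r : List ℤ) : Bool := feas c (tau c :: E) [] r

/-- the rows which are not constant -/
def prune (c : List ℤ) (E I : List (List ℤ)) : List (List ℤ) := I.filter fun r => live c E r

/-- removal of duplicates -/
def dd (I : List (List ℤ)) : List (List ℤ) :=
  I.foldr (fun r acc => if r ∈ acc then acc else r :: acc) []

theorem mem_dd {I : List (List ℤ)} {r : List ℤ} : r ∈ dd I ↔ r ∈ I := by
  induction I with
  | nil => simp [dd]
  | cons a I ih =>
    have e : dd (a :: I) = if a ∈ dd I then dd I else a :: dd I := rfl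
    rw [e]
    split_ifs with h
    · rw [ih, List.mem_cons]
      constructor
      · exact Or.inr
      · rintro (rfl | h')
        · exact ih.1 h
        · exact h'
    · rw [List.mem_cons, List.mem_cons, ih]

theorem nodup_dd (I : List (List ℤ)) : (dd I).Nodup := by
  induction I with
  | nil => simp [dd]
  | cons a I ih =>
    have e : dd (a :: I) = if a ∈ dd I then dd I else a :: dd I := rfl
    rw [e]
    split_ifs with h
    · exact ih
    · exact List.nodup_cons.2 ⟨h, ih⟩

theorem length_dd_le (I : List (List ℤ)) : (dd I).length ≤ I.length := by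
  induction I with
  | nil => simp [dd]
  | cons a I ih =>
    have e : dd (a :: I) = if a ∈ dd I then dd I else a :: dd I := rfl
    rw [e]
    split_ifs with h
    · rw [List.length_cons]; omega
    · rw [List.length_cons, List.length_cons]; omega

variable {c : List ℤ} {E J I : List (List ℤ)}

/-- a vertex lies above the lowest threshold -/
theorem thr_zero (hc : 0 < c.length) (hE : Len c.length E) (hJ : Len c.length J)
    {v : EuclideanSpace ℝ (Fin c.length)} (v2 : Ext (rf c.length) E J v)
    (v3 : 0 < rf c.length (tau c) v) : 0 < rf c.length (thr c (kpar c E J) 0) v := by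
  have hKβ : kpar c E J = 2 * bpar c E J + 1 := rfl
  obtain ⟨p, q, q0, q1, p1, hpq⟩ := val_bound hc hE hJ v2 v3
  rw [rf_thr]
  have hq : (1 : ℝ) ≤ q := by exact_mod_cast q0
  have hp2 := (abs_le.1 p1).1
  have hbK : (2 : ℝ) ^ bpar c E J < 2 ^ kpar c E J := pow_lt_pow_right₀ (by norm_num) (by omega)
  have h6 := arith_zero v3 hq hpq (by positivity) hp2 hbK
  have h2K : (2 : ℝ) ^ (2 * kpar c E J) = 2 ^ kpar c E J * 2 ^ kpar c E J := by
    rw [two_mul, pow_add]
  rw [Nat.cast_zero, h2K]
  have h7 : (0 : ℝ) < 2 ^ kpar c E J := by positivity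
  have h8 := mul_pos h7 h6
  linarith

theorem feas_topT (hc : 0 < c.length) (hE : Len c.length E) (hJ : Len c.length J)
    (hτJ : negV (tau c) ∈ J) {v : List ℤ} (hv : Vx c E J v) :
    feas c E J (topT c E J) = true := by
  have hanti : ∀ s s', s ≤ s' → feas c E J (thr c (kpar c E J) s') = true →
      feas c E J (thr c (kpar c E J) s) = true := by
    intro s s' hs h
    rw [feas_iff hE hJ (length_thr _ _ _)] at h ⊢
    obtain ⟨h, hh, hp⟩ := h
    refine ⟨h, hh, hp.trans_le ?_⟩
    rw [rf_thr, rf_thr]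
    have h1 := tau_nonneg hτJ hh
    have h2 : (s : ℝ) ≤ s' := by exact_mod_cast hs
    nlinarith
  obtain ⟨b1, -, -, -⟩ := binary_search (A := fun s => feas c E J (thr c (kpar c E J) s)) hanti
    (2 * kpar c E J + 1) 0 _ (tsearch_eq c E J (kpar c E J))
  unfold topT
  rcases b1 with b1 | b1
  · exact b1
  · rw [b1, feas_iff hE hJ (length_thr _ _ _)]
    exact ⟨_, hv.ext.mem, thr_zero hc hE hJ hv.ext hv.pos⟩

/-- `optw` is an optimal vertex or an improving extreme ray -/
theorem optw_spec (hc : 0 < c.length) (hE : Len c.length E) (hJ : Len c.length J)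
    (hτJ : negV (tau c) ∈ J) {v : List ℤ} (hv : Vx c E J v) :
    (optw c E J).length = c.length ∧ Ext (rf c.length) E J (lv c.length (optw c E J)) ∧
      Top c E J (optw c E J) ∧ (0 < rf c.length (tau c) (lv c.length (optw c E J)) ∨
        (rf c.length (tau c) (lv c.length (optw c E J)) = 0 ∧
          0 < rf c.length c (lv c.length (optw c E J)))) := by
  have hf := feas_topT hc hE hJ hτJ hv
  have hgl : (topT c E J).length = c.length := length_thr _ _ _
  obtain ⟨h1, h2, h3, h4, h5⟩ := greedy_spec hE hJ J (fun r hr => hr) hf _ rfl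
  change Len c.length (greedy c E J (topT c E J)) at h1
  unfold optw
  set g := topT c E J with hg
  set G := greedy c E J g with hG
  obtain ⟨f1, f2, -⟩ := face_spec h1 hJ hgl
  have f3 := feas_pos h1 hJ hgl h4
  set x := face c G J g with hx
  -- an extreme ray of the face
  obtain ⟨u, u0, u1⟩ := exists_ext (φ := rf c.length) (E := G) (J := J)
    (g := rf c.length g) (fun y y1 y2 => by
      obtain ⟨s, hs⟩ := hv.ext.ker y (fun r hr => y1 r (h2 r hr)) fun r hr _ => y2 r hr
      have h1 := y2 _ hτJ
      rw [rf_negV, hs, map_smul, smul_eq_mul, neg_eq_zero] at h1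
      rcases mul_eq_zero.1 h1 with h2 | h2
      · rw [hs, h2, zero_smul]
      · exact absurd h2 hv.pos.ne') f2 f3
  have hut : ∀ r ∈ J, rf c.length r u = 0 → r ∈ G := by
    intro r hr h0
    rcases h5 r hr with h | ⟨E', e1, e2, e3⟩
    · exact h
    · exfalso
      rw [feas_iff (e1.cons (hJ r hr)) hJ hgl] at e3
      refine e3 ⟨u, ⟨fun e he => ?_, u0.mem.2⟩, u1⟩
      rcases List.mem_cons.1 he with rfl | he
      · exact h0
      · exact u0.mem.1 e (e2 e he)
  obtain ⟨s, hs⟩ := u0.ker (lv c.length x) f2.1 fun r hr h0 => f2.1 r (hut r hr h0)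
  have hs0 : 0 < s := by
    rw [hs, map_smul, smul_eq_mul] at f3
    exact (mul_pos_iff_of_pos_right u1).1 f3
  have hxG : Ext (rf c.length) G J (lv c.length x) := by
    rw [hs]; exact u0.smul hs0
  have hxE : Ext (rf c.length) E J (lv c.length x) := by
    refine ⟨⟨fun r hr => f2.1 r (h2 r hr), f2.2⟩, hxG.ne, fun h a1 a2 => ?_⟩
    refine hxG.ker h (fun r hr => ?_) a2
    rcases h3 r hr with h | h
    · exact a1 r h
    · exact a2 r h (f2.1 r hr)
  have hor : 0 < rf c.length (tau c) (lv c.length x) ∨
      (rf c.length (tau c) (lv c.length x) = 0 ∧ 0 < rf c.length c (lv c.length x)) := by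
    rcases (tau_nonneg hτJ hxE.mem).lt_or_eq with h | h
    · exact Or.inl h
    · right
      refine ⟨h.symm, ?_⟩
      rw [hg, topT, rf_thr, ← h, mul_zero, sub_zero] at f3
      exact (mul_pos_iff_of_pos_left (by positivity)).1 f3
  refine ⟨f1, hxE, ?_, hor⟩
  rcases hor with h | ⟨h, h'⟩
  · obtain ⟨t1, t2⟩ := tsearch_spec hE hJ hτJ (kpar c E J)
    obtain ⟨g1, g2⟩ := gap_spec hc hE hJ hτJ t1 rfl f1 hxE.mem f3 (by
      rw [rf_gain f1]; exact le_of_eq (by ring)) hxE h
    rw [top_iff f1]
    rintro ⟨y, hy, hpos⟩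
    obtain ⟨u, u1, u2⟩ := g2 E (fun r hr => hr) (fun u hu => hu) y hy hpos
    have := t2 _ g1 ((feas_iff hE hJ (length_thr _ _ _)).2 ⟨u, u1, u2⟩)
    omega
  · exact top_ray hτJ h h'

/-! ### Live rows -/

theorem live_iff (hE : Len c.length E) {r : List ℤ} (hr : r.length = c.length) :
    live c E r = true ↔ ∃ h : EuclideanSpace ℝ (Fin c.length), (∀ e ∈ E, rf c.length e h = 0) ∧
      rf c.length (tau c) h = 0 ∧ 0 < rf c.length r h := by
  have h0 : Len c.length ([] : List (List ℤ)) := fun r hr => by simp at hr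
  rw [live, feas_iff (hE.cons (length_tau c)) h0 hr]
  constructor
  · rintro ⟨h, hh, hp⟩
    exact ⟨h, fun e he => hh.1 e (by simp [he]), hh.1 _ (by simp), hp⟩
  · rintro ⟨h, h1, h2, hp⟩
    refine ⟨h, ⟨fun e he => ?_, by simp⟩, hp⟩
    rcases List.mem_cons.1 he with rfl | he
    · exact h2
    · exact h1 e he

theorem dead_eq (hE : Len c.length E) {r : List ℤ} (hr : r.length = c.length)
    (hl : ¬ live c E r = true) {v h : EuclideanSpace ℝ (Fin c.length)}
    (hv : ∀ e ∈ E, rf c.length e v = 0)
    (hh : ∀ e ∈ E, rf c.length e h = 0) :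
    rf c.length r h * rf c.length (tau c) v = rf c.length r v * rf c.length (tau c) h := by
  rw [live_iff hE hr] at hl
  push Not at hl
  set y := rf c.length (tau c) v • h - rf c.length (tau c) h • v with hy
  have y1 : ∀ e ∈ E, rf c.length e y = 0 := fun e he => by
    simp [hy, hv e he, hh e he]
  have y2 : rf c.length (tau c) y = 0 := by
    simp only [hy, map_sub, map_smul, smul_eq_mul]; ring
  have h1 := hl y y1 y2
  have h2 := hl (-y) (fun e he => by simp [y1 e he]) (by simp [y2])
  rw [map_neg] at h2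
  have h3 : rf c.length r y = 0 := le_antisymm h1 (by linarith)
  simp only [hy, map_sub, map_smul, smul_eq_mul] at h3
  linarith

theorem mem_prune {r : List ℤ} : r ∈ prune c E I ↔ r ∈ I ∧ live c E r = true := by
  rw [prune, List.mem_filter]

theorem Len.prune (hI : Len c.length I) : Len c.length (prune c E I) := hI.filter _

theorem inC_prune (hE : Len c.length E) (hI : Len c.length I) {v : List ℤ}
    (hv : Vx c E (jl c I) v) {h : EuclideanSpace ℝ (Fin c.length)}
    (hh : InC (rf c.length) E (jl c (prune c E I)) h) : InC (rf c.length) E (jl c I) h := by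
  refine ⟨hh.1, fun r hr => ?_⟩
  rcases mem_jl.1 hr with rfl | hr
  · exact hh.2 _ (tau_mem_jl _ _)
  · by_cases hl : live c E r = true
    · exact hh.2 r (mem_jl.2 (Or.inr (mem_prune.2 ⟨hr, hl⟩)))
    · have h1 := dead_eq hE (hI r hr) hl hv.ext.mem.1 hh.1
      have h2 := hv.ext.mem.2 r (mem_jl.2 (Or.inr hr))
      have h3 := tau_nonneg (tau_mem_jl _ _) hh
      have h4 := hv.pos
      have h5 : rf c.length r h * rf c.length (tau c) (lv c.length v) ≤ 0 := by
        rw [h1]; exact mul_nonpos_of_nonpos_of_nonneg h2 h3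
      by_contra hpos
      push Not at hpos
      have := mul_pos hpos h4
      linarith

theorem prune_sub : ∀ r ∈ jl c (prune c E I), r ∈ jl c I :=
  jl_mono fun _ hr => (mem_prune.1 hr).1

theorem vx_prune (hE : Len c.length E) (hI : Len c.length I) {v : List ℤ}
    (hv : Vx c E (jl c I) v) : Vx c E (jl c (prune c E I)) v := by
  refine ⟨hv.len, ⟨hv.ext.mem.to_relax prune_sub, hv.ext.ne, fun h h1 h2 => ?_⟩, hv.pos⟩
  refine hv.ext.ker h h1 fun r hr h0 => ?_
  rcases mem_jl.1 hr with rfl | hr'
  · exact h2 _ (tau_mem_jl _ _) h0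
  · by_cases hl : live c E r = true
    · exact h2 r (mem_jl.2 (Or.inr (mem_prune.2 ⟨hr', hl⟩))) h0
    · have h1 := dead_eq hE (hI r hr') hl hv.ext.mem.1 h1
      rw [h0, zero_mul] at h1
      rcases mul_eq_zero.1 h1 with h | h
      · exact h
      · exact absurd h hv.pos.ne'

theorem Good.inC {P : List (List ℤ)} (h : Good c E J P) :
    ∀ w ∈ P, InC (rf c.length) E J (lv c.length w) := by
  induction P with
  | nil => exact h.elim
  | cons w P ih =>
    intro x hx
    rcases List.mem_cons.1 hx with rfl | hx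
    · exact h.head.2.mem
    · cases P with
      | nil => simp at hx
      | cons u P => exact ih h.2 x hx

theorem good_prune (hE : Len c.length E) (hI : Len c.length I) {v : List ℤ}
    (hv : Vx c E (jl c I) v) {P : List (List ℤ)} (h : Good c E (jl c (prune c E I)) P) :
    Good c E (jl c I) P :=
  Good.of_relax prune_sub h fun w hw => inC_prune hE hI hv (Good.inC h w hw)

/-- a facet of a live row has smaller dimension -/
theorem live_facet (hE : Len c.length E) {D : ℕ} (hD : DimLe c E D) {F : List ℤ}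
    (hF : F.length = c.length) (hl : live c E F = true)
    {x : EuclideanSpace ℝ (Fin c.length)} (hx : ∀ e ∈ E, rf c.length e x = 0) (hx0 : x ≠ 0)
    (hFx : rf c.length F x = 0) : 0 < D ∧ DimLe c (F :: E) (D - 1) := by
  obtain ⟨y, y1, -, y3⟩ := (live_iff hE hF).1 hl
  exact hD.facet hx hx0 hFx y1 y3.ne'

theorem jl_dd {r : List ℤ} : r ∈ jl c (dd I) ↔ r ∈ jl c I := by
  rw [mem_jl, mem_jl, mem_dd]

theorem good_dd {P : List (List ℤ)} (h : Good c E (jl c (dd I)) P) : Good c E (jl c I) P :=
  Good.of_relax (fun _ hr => jl_dd.1 hr) h fun w hw =>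
    ⟨(Good.inC h w hw).1, fun r hr => (Good.inC h w hw).2 r (jl_dd.2 hr)⟩

theorem vx_dd {v : List ℤ} (hv : Vx c E (jl c I) v) : Vx c E (jl c (dd I)) v :=
  ⟨hv.len, hv.ext.to_relax (fun _ hr => jl_dd.1 hr) fun _ hr _ => jl_dd.2 hr, hv.pos⟩

end Pool.Agent.Y644.QW
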