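import Pool.Agent.Y644.QW.Runs
set_option autoImplicit false

/-!
# All counters in parallel
-/

namespace Pool.Agent.Y644.QW

open Finset Pool.Agent.Y644.QS Pool.Agent.H687R2.LLL Pool.Agent.NPC Pool.Agent.NPC.H532.RP

/-- the state of the algorithm with counter `g` after `k` steps -/
def runW (x : Inp) (g k : ℕ) : WState :=
  (wstep (crow x))^[k] (mkcall g [] (rowsD x) [startV x], [])

/-- has the algorithm finished? -/
def term (s : WState) : Bool :=
  Sum.elim (fun _ => false) (fun t : State => Sum.elim (fun _ => false)
    (fun _ => t.2.isEmpty) t.1) s.1 && s.2.isEmpty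

/-- the computed path -/
def outP (s : WState) : List (List ℤ) :=
  Sum.elim (fun _ => []) (fun t : State => Sum.elim (fun _ => []) (fun p => p) t.1) s.1

theorem term_iff {s : WState} : term s = true ↔ ∃ p, s = retW p [] := by
  obtain ⟨s, st⟩ := s
  rcases s with x | ⟨x | p, l⟩
  · simp [term, retW]
  · simp [term, retW]
  · cases l with
    | nil =>
      cases st with
      | nil => simp [term, retW]
      | cons f st => simp [term, retW]
    | cons f l => simp [term, retW]

/-- the first time at which one of the algorithms has finished -/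
def firstK (x : Inp) (L K : ℕ) : ℕ :=
  ((List.range (K + 1)).filter fun k =>
    (List.range (L + 1)).any fun g => term (runW x g k)).head?.getD 0

/-- the first algorithm which has finished at time `k` -/
def firstG (x : Inp) (L k : ℕ) : ℕ :=
  ((List.range (L + 1)).filter fun g => term (runW x g k)).head?.getD 0

/-- the output of the first algorithm which finishes -/
def lpW (x : Inp) (L K : ℕ) : Outp :=
  lpOut x.2.2.1.length (outP (runW x (firstG x L (firstK x L K)) (firstK x L K)))

/-- the algorithm on bit strings -/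
def lpBitsW (x : List Bool) (K : ℕ) : Outp :=
  (unbits Inp x).elim ([], none) fun y => lpW y x.length K

theorem head_range {P : ℕ → Bool} {k : ℕ} (hk : P k = true) (hmin : ∀ i < k, P i = false)
    {K : ℕ} (hK : k ≤ K) : ((List.range (K + 1)).filter P).head?.getD 0 = k := by
  have h0 : (List.range k).filter P = [] := by
    rw [List.filter_eq_nil_iff]
    intro i hi
    rw [hmin i (List.mem_range.1 hi)]
    simp
  have h1 : ∀ d, ((List.range (k + d + 1)).filter P).head? = some k := by
    intro d
    induction d with
    | zero => rw [add_zero, List.range_succ, List.filter_append, h0]; simp [hk]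
    | succ d ih =>
      rw [List.range_succ, List.filter_append, List.head?_append, ← add_assoc, ih]
      rfl
  obtain ⟨d, rfl⟩ := Nat.exists_eq_add_of_le hK
  rw [h1]
  rfl

theorem firstK_eq {x : Inp} {L k : ℕ} (hk : ∃ g ≤ L, term (runW x g k) = true)
    (hmin : ∀ i < k, ∀ g ≤ L, term (runW x g i) = false) {K : ℕ} (hK : k ≤ K) :
    firstK x L K = k := by
  refine head_range (P := fun k => (List.range (L + 1)).any fun g => term (runW x g k)) ?_ ?_ hK
  · obtain ⟨g, h1, h2⟩ := hk
    rw [List.any_eq_true]
    exact ⟨g, List.mem_range.2 (by omega), h2⟩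
  · intro i hi
    rw [List.any_eq_false]
    intro g hg
    rw [hmin i hi g (by have := List.mem_range.1 hg; omega)]
    simp

variable {m n : ℕ} {A : Fin m → Fin n → ℚ} {b : Fin m → ℚ} {c v : Fin n → ℚ}

/-- The algorithm is correct. The output does not depend on the bound `K` for the number of steps,
if one of the algorithms finishes within `K` steps. -/
theorem lpW_spec (hv : re v ∈ Set.extremePoints ℝ (polyhedron A b)) (L : ℕ) :
    ∃ (N : ℕ) (x : ℕ → Fin n → ℚ) (d : Option (Fin n → ℚ)),
      (∀ K, (∃ g ≤ L, ∃ k ≤ K, term (runW (inp A b c v) g k) = true) →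
        lpW (inp A b c v) L K =
          ((List.range (N + 1)).map (fun k => List.ofFn (x k)), d.map List.ofFn)) ∧
      IsSimplexPath (polyhedron A b) c v N x d ∧ ∃ (k g : ℕ) (Q : List (List ℤ)),
        (∀ i < k, ∀ g ≤ L, term (runW (inp A b c v) g i) = false) ∧
        runW (inp A b c v) g k = retW (Q ++ [startV (inp A b c v)]) [] ∧ N ≤ Q.length := by
  classical
  set X := inp A b c v with hX
  have hex : ∃ k, ∃ g ≤ L, term (runW X g k) = true := by
    obtain ⟨Q, j, -, h2, -⟩ := run_lp_general (cc := c) hv 0
    exact ⟨j, 0, Nat.zero_le _, term_iff.2 ⟨_, h2⟩⟩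
  obtain ⟨k, hk, hmin⟩ : ∃ k, (∃ g ≤ L, term (runW X g k) = true) ∧
      ∀ i < k, ∀ g ≤ L, term (runW X g i) = false := by
    refine ⟨Nat.find hex, Nat.find_spec hex, fun i hi g hg => ?_⟩
    have := Nat.find_min hex hi
    rw [← Bool.not_eq_true]
    exact fun h => this ⟨g, hg, h⟩
  obtain ⟨g, hg, hgmin⟩ : ∃ g, (g ≤ L ∧ term (runW X g k) = true) ∧
      ∀ i < g, term (runW X i k) = false := by
    refine ⟨Nat.find hk, Nat.find_spec hk, fun i hi => ?_⟩
    have h1 := Nat.find_min hk hi
    have h2 := (Nat.find_spec hk).1
    rw [← Bool.not_eq_true]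
    exact fun h => h1 ⟨by omega, h⟩
  have hfg : firstG X L k = g :=
    head_range (P := fun g => term (runW X g k)) hg.2 hgmin hg.1
  -- the state is the result of the call
  obtain ⟨Q, j, -, h2, h3, h4⟩ := run_lp_general (cc := c) hv g
  have hstate : runW X g k = retW (Q ++ [startV X]) [] := by
    obtain ⟨p, hp⟩ := term_iff.1 hg.2
    have e1 : runW X g (k + j) = retW p [] := by
      unfold runW at hp ⊢
      rw [add_comm, Function.iterate_add_apply, hp, wstep_fixed]
    have e2 : runW X g (k + j) = retW (Q ++ [startV X]) [] := by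
      unfold runW
      rw [Function.iterate_add_apply, h2, wstep_fixed]
    rw [hp, ← e1, e2]
  obtain ⟨N, x, d, g1, g2, g3⟩ := lpOut_spec rfl (good_dd h3)
    (h4.of_relax fun r hr => jl_dd.1 hr)
  refine ⟨N, x, d, fun K hK => ?_, g2, k, g, Q, hmin, hstate, g3⟩
  have hkK : k ≤ K := by
    obtain ⟨g', h5, i, h6, h7⟩ := hK
    by_contra hcon
    have := hmin i (by omega) g' h5
    rw [h7] at this
    exact absurd this (by simp)
  unfold lpW
  rw [firstK_eq hk hmin hkK, hfg, hstate]
  have h6 : X.2.2.1.length = n := by simp [hX, QS.inp]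
  rw [h6]
  exact g1

end Pool.Agent.Y644.QW
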