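import Pool.Agent.Y644.QW.Arith
set_option autoImplicit false

/-!
# Polynomial time: one step of the second machine
-/

namespace Pool.Agent.NPC.Y644

open Pool.Agent.Y644.QS Pool.Agent.Y644.QW Pool.Agent.H687R2.LLL

variable {α : Type} [TEnc α]

theorem poly_topT {c : α → List ℤ} {E J : α → List (List ℤ)} (hc : Poly c) (hE : Poly E)
    (hJ : Poly J) : Poly (fun a => topT (c a) (E a) (J a)) := by
  unfold topT
  have h1 : Poly (fun a => tsearch (c a) (E a) (J a) (kpar (c a) (E a) (J a))) := by
    fun_prop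
  fun_prop

attribute [fun_prop] poly_topT

theorem poly_optw {c : α → List ℤ} {E J : α → List (List ℤ)} (hc : Poly c) (hE : Poly E)
    (hJ : Poly J) : Poly (fun a => optw (c a) (E a) (J a)) := by
  unfold optw
  have h1 : Poly (fun a => greedy (c a) (E a) (J a) (topT (c a) (E a) (J a))) := by fun_prop
  fun_prop

attribute [fun_prop] poly_optw

theorem poly_live {c r : α → List ℤ} {E : α → List (List ℤ)} (hc : Poly c) (hE : Poly E)
    (hr : Poly r) : Poly (fun a => live (c a) (E a) (r a)) := by
  unfold live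
  have h1 : Poly (fun a => tau (c a) :: E a) := by fun_prop
  exact poly_feas hc h1 (Poly.const _) hr

attribute [fun_prop] poly_live

theorem poly_prune {c : α → List ℤ} {E I : α → List (List ℤ)} (hc : Poly c) (hE : Poly E)
    (hI : Poly I) : Poly (fun a => prune (c a) (E a) (I a)) := by
  unfold prune
  exact Poly.filter (p := fun a r => live (c a) (E a) r) hI (by fun_prop)

attribute [fun_prop] poly_prune

theorem sz_dd (I : List (List ℤ)) : sz (dd I) ≤ sz I := by
  induction I with
  | nil => simp [dd]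
  | cons a I ih =>
    have e : dd (a :: I) = if a ∈ dd I then dd I else a :: dd I := rfl
    rw [e]
    split_ifs <;> simp only [sz_list_cons] <;> omega

theorem poly_dd {I : α → List (List ℤ)} (hI : Poly I) : Poly (fun a => dd (I a)) := by
  unfold dd
  obtain ⟨q, hq⟩ := hI.sz_le
  have hF : Poly (fun p : α × List ℤ × List (List ℤ) =>
      if p.2.1 ∈ p.2.2 then p.2.2 else p.2.1 :: p.2.2) := by fun_prop
  refine Poly.foldr (l := I) (s := fun _ => ([] : List (List ℤ)))
    (F := fun _ r acc => if r ∈ acc then acc else r :: acc) hI (Poly.const _) hF q ?_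
  intro a k _
  have h1 := sz_dd ((I a).drop k)
  have h2 := hq a
  have h3 := Poly.sz_drop_le (I a) k
  unfold dd at h1
  omega

attribute [fun_prop] poly_dd

theorem poly_wS {c : α → List ℤ} {E I : α → List (List ℤ)} (hc : Poly c) (hE : Poly E)
    (hI : Poly I) : Poly (fun a => wS (c a) (E a) (I a)) := by
  unfold wS
  have h1 : Poly (fun a => optw (c a) (E a) (jl (c a) (I a))) := by fun_prop
  have h2 : Poly (fun p : α × List ℤ => optw (c p.1) (E p.1) (jl (c p.1) (I p.1))) :=
    h1.comp (Poly.fst Poly.id)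
  exact Poly.filter (p := fun a r => !decide (dot r (optw (c a) (E a) (jl (c a) (I a))) = 0))
    hI (by fun_prop)

attribute [fun_prop] poly_wS

theorem poly_mkcall {g : α → ℕ} {E I P : α → List (List ℤ)} (hg : Poly g) (hE : Poly E)
    (hI : Poly I) (hP : Poly P) : Poly (fun a => mkcall (g a) (E a) (I a) (P a)) := by
  unfold mkcall
  have h1 : Poly (fun a => (Sum.inr (Sum.inl (E a, I a, P a), []) : (ℕ × EIP) ⊕ State)) := by
    fun_prop
  have h2 : Poly (fun a => (Sum.inl (g a - 1, E a, I a, P a) : (ℕ × EIP) ⊕ State)) := by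
    fun_prop
  exact Poly.ite (Poly.decide_eq hg (Poly.const 0)) h1 h2

theorem poly_wfac {g : α → ℕ} {F : α → List ℤ} {E I P : α → List (List ℤ)}
    {st : α → List (ℕ × EIP)} (hg : Poly g) (hE : Poly E) (hI : Poly I) (hP : Poly P)
    (hst : Poly st) (hF : Poly F) :
    Poly (fun a => wfac (g a) (E a) (I a) (P a) (st a) (F a)) := by
  unfold wfac
  have h1 : Poly (fun a => (I a).filter (fun r => !decide (r = F a))) := by fun_prop
  fun_prop

theorem poly_retW {P : α → List (List ℤ)} {st : α → List (ℕ × EIP)} (hP : Poly P)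
    (hst : Poly st) : Poly (fun a => retW (P a) (st a)) := by
  unfold retW
  fun_prop

attribute [fun_prop] poly_mkcall poly_wfac poly_retW

theorem poly_wcall {c : α → List ℤ} {g : α → ℕ} {E I P : α → List (List ℤ)}
    {st : α → List (ℕ × EIP)} (hc : Poly c) (hg : Poly g) (hE : Poly E) (hI : Poly I)
    (hP : Poly P) (hst : Poly st) :
    Poly (fun a => wcall (c a) (g a) (E a) (I a) (P a) (st a)) := by
  unfold wcall
  have h1 : Poly (fun a => (topF (c a) (E a) (jl (c a) (I a)) (I a) (hdp (P a))).head?) := by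
    fun_prop
  have h2 : Poly (fun a => ((mkcall (g a) (E a) (wS (c a) (E a) (I a)) [hdp (P a)],
      (g a, E a, I a, P a) :: st a) : WState)) := by fun_prop
  have h3 : Poly (fun a => (topF (c a) (E a) (jl (c a) (I a)) (I a) (hdp (P a))).head?.elim
      ((mkcall (g a) (E a) (wS (c a) (E a) (I a)) [hdp (P a)],
        (g a, E a, I a, P a) :: st a) : WState)
      fun F => wfac (g a) (E a) (I a) (P a) (st a) F) :=
    Poly.optElim (h := fun a F => wfac (g a) (E a) (I a) (P a) (st a) F) h1 h2 (by fun_prop)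
  have h4 : Poly (fun a => ((tight (I a) (hdp (P a))).isEmpty ||
      !decide (0 < dot (tau (c a)) (hdp (P a))))) := by fun_prop
  exact Poly.ite (Poly.decide_bool h4) (by fun_prop) h3

theorem poly_wret {c : α → List ℤ} {g : α → ℕ} {E I P : α → List (List ℤ)}
    {st : α → List (ℕ × EIP)} {q : α → List (List ℤ) × Bool} (hc : Poly c) (hg : Poly g)
    (hE : Poly E) (hI : Poly I) (hP : Poly P) (hst : Poly st) (hq : Poly q) :
    Poly (fun a => wret (c a) (g a) (E a) (I a) (P a) (st a) (q a)) := by
  unfold wret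
  have h1 : Poly (fun a => (topF (c a) (E a) (jl (c a) (I a)) (I a) (hdp (q a).1)).head?) := by
    fun_prop
  have h2 : Poly (fun a => retW (P a) (st a)) := by fun_prop
  have h3 : Poly (fun a => (topF (c a) (E a) (jl (c a) (I a)) (I a) (hdp (q a).1)).head?.elim
      (retW (P a) (st a))
      fun F => wfac (g a) (E a) (I a) ((q a).1 ++ (P a).tail) (st a) F) :=
    Poly.optElim (h := fun a F => wfac (g a) (E a) (I a) ((q a).1 ++ (P a).tail) (st a) F)
      h1 h2 (by fun_prop)
  exact Poly.ite (Poly.decide_bool (by fun_prop)) h3 (by fun_prop)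

attribute [fun_prop] poly_wcall poly_wret

/-- the steps with a path returned to the bottom of the stack of the first machine -/
theorem poly_wstep_ret : Poly (fun x : (List ℤ × WState) × List (List ℤ) =>
    wstep x.1.1 (Sum.inr (Sum.inr x.2, []), x.1.2.2)) := by
  have h3 : Poly (fun x : ((List ℤ × WState) × List (List ℤ)) × (ℕ × EIP) × List (ℕ × EIP) =>
      wret x.1.1.1 x.2.1.1 x.2.1.2.1 x.2.1.2.2.1 x.2.1.2.2.2 x.2.2
        (trunc x.1.1.1 x.2.1.2.1 x.2.1.2.2.1 (wS x.1.1.1 x.2.1.2.1 x.2.1.2.2.1) x.1.2)) := by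
    fun_prop
  refine (Poly.listCases (l := fun x : (List ℤ × WState) × List (List ℤ) => x.1.2.2)
    (g := fun x => ((Sum.inr (Sum.inr x.2, []), []) : WState))
    (h := fun x f st => wret x.1.1 f.1 f.2.1 f.2.2.1 f.2.2.2 st
      (trunc x.1.1 f.2.1 f.2.2.1 (wS x.1.1 f.2.1 f.2.2.1) x.2)) (by fun_prop) (by fun_prop)
      h3).congr ?_
  rintro ⟨⟨c, s, st⟩, p⟩
  cases st with
  | nil => rfl
  | cons f st =>
    obtain ⟨g, E, I, P⟩ := f
    rfl

set_option synthInstance.maxSize 4000 in
theorem poly_wstep : Poly (fun x : List ℤ × WState => wstep x.1 x.2) := by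
  -- calls with positive counter
  have h1 : Poly (fun x : (List ℤ × WState) × (ℕ × EIP) =>
      wcall x.1.1 x.2.1 x.2.2.1 (prune x.1.1 x.2.2.1 x.2.2.2.1) x.2.2.2.2 x.1.2.2) := by
    fun_prop
  -- states of the first machine
  have hst : Poly (fun x : (List ℤ × WState) × State =>
      ((Sum.inr (step x.1.1 x.2), x.1.2.2) : WState)) := by
    have : Poly (fun x : (List ℤ × WState) × State => step x.1.1 x.2) :=
      Poly.comp (g := fun x : List ℤ × State => step x.1 x.2)
        (f := fun x : (List ℤ × WState) × State => (x.1.1, x.2)) poly_step (by fun_prop)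
    fun_prop
  -- a path is returned
  have h5 : Poly (fun x : ((List ℤ × WState) × State) × List (List ℤ) =>
      wstep x.1.1.1 (Sum.inr (Sum.inr x.2, x.1.2.2), x.1.1.2.2)) := by
    have a1 : Poly (fun x : ((List ℤ × WState) × State) × List (List ℤ) =>
        wstep x.1.1.1 (Sum.inr (Sum.inr x.2, []), x.1.1.2.2)) :=
      Poly.comp (g := fun x : (List ℤ × WState) × List (List ℤ) =>
        wstep x.1.1 (Sum.inr (Sum.inr x.2, []), x.1.2.2))
        (f := fun x : ((List ℤ × WState) × State) × List (List ℤ) => (x.1.1, x.2))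
        poly_wstep_ret (by fun_prop)
    have a2 : Poly (fun x : (((List ℤ × WState) × State) × List (List ℤ)) ×
        Frame × List Frame => ((Sum.inr (step x.1.1.1.1 (Sum.inr x.1.2, x.2.1 :: x.2.2)),
          x.1.1.1.2.2) : WState)) := by
      have : Poly (fun x : (((List ℤ × WState) × State) × List (List ℤ)) ×
          Frame × List Frame => step x.1.1.1.1 (Sum.inr x.1.2, x.2.1 :: x.2.2)) :=
        Poly.comp (g := fun x : List ℤ × State => step x.1 x.2)
          (f := fun x : (((List ℤ × WState) × State) × List (List ℤ)) ×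
            Frame × List Frame => (x.1.1.1.1, (Sum.inr x.1.2, x.2.1 :: x.2.2)))
          poly_step (by fun_prop)
      fun_prop
    refine (Poly.listCases (l := fun x : ((List ℤ × WState) × State) × List (List ℤ) =>
      x.1.2.2)
      (g := fun x => wstep x.1.1.1 (Sum.inr (Sum.inr x.2, []), x.1.1.2.2))
      (h := fun x f l => ((Sum.inr (step x.1.1.1 (Sum.inr x.2, f :: l)), x.1.1.2.2) : WState))
      (by fun_prop) a1 a2).congr ?_
    rintro ⟨⟨⟨c, s, st⟩, ⟨s', l⟩⟩, p⟩
    cases l with
    | nil => rfl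
    | cons f l => rfl
  have h6 : Poly (fun x : (List ℤ × WState) × State =>
      wstep x.1.1 (Sum.inr x.2, x.1.2.2)) := by
    have a1 : Poly (fun x : ((List ℤ × WState) × State) × EIP =>
        ((Sum.inr (step x.1.1.1 x.1.2), x.1.1.2.2) : WState)) :=
      Poly.comp (g := fun x : (List ℤ × WState) × State =>
        ((Sum.inr (step x.1.1 x.2), x.1.2.2) : WState))
        (f := fun x : ((List ℤ × WState) × State) × EIP => x.1) hst (by fun_prop)
    refine (Poly.sumElim (o := fun x : (List ℤ × WState) × State => x.2.1)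
      (g := fun x (_ : EIP) => ((Sum.inr (step x.1.1 x.2), x.1.2.2) : WState))
      (h := fun x (p : List (List ℤ)) => wstep x.1.1 (Sum.inr (Sum.inr p, x.2.2), x.1.2.2))
      (by fun_prop) a1 h5).congr ?_
    rintro ⟨⟨c, s, st⟩, ⟨s', l⟩⟩
    cases s' with
    | inl y => rfl
    | inr p => rfl
  refine (Poly.sumElim (o := fun x : List ℤ × WState => x.2.1)
    (g := fun x y => wcall x.1 y.1 y.2.1 (prune x.1 y.2.1 y.2.2.1) y.2.2.2 x.2.2)
    (h := fun (x : List ℤ × WState) (s : State) => wstep x.1 (Sum.inr s, x.2.2))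
    (by fun_prop) h1 h6).congr ?_
  rintro ⟨c, s, st⟩
  cases s with
  | inl x => rfl
  | inr p => rfl

end Pool.Agent.NPC.Y644
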