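import Pool.Agent.Y644.QW.PolyWIter
set_option autoImplicit false

/-!
# Polynomial time: the second algorithm
-/

namespace Pool.Agent.NPC.Y644

open Pool.Agent.Y644.QS Pool.Agent.Y644.QW Pool.Agent.H687R2.LLL Pool.Agent.NPC.H532.RP

variable {α : Type} [TEnc α]

theorem poly_rowsD {x : α → Inp} (hx : Poly x) : Poly (fun a => rowsD (x a)) :=
  poly_dd (poly_rowsI.comp hx)

theorem poly_runW {x : α → Inp} {g k : α → ℕ} (hx : Poly x) (hg : UPoly g) (hk : UPoly k) :
    Poly (fun a => runW (x a) (g a) (k a)) := by
  unfold runW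
  have hc : Poly (fun a => crow (x a)) := poly_crow.comp hx
  have hI : Poly (fun a => rowsD (x a)) := poly_rowsD hx
  have hv : Poly (fun a => startV (x a)) := poly_startV.comp hx
  have hgP : Poly g := hg.toPoly
  obtain ⟨p, hp⟩ := exists_VB
  obtain ⟨q1, hq1⟩ := hc.sz_le
  obtain ⟨q2, hq2⟩ := hI.sz_le
  obtain ⟨q3, hq3⟩ := hv.sz_le
  obtain ⟨w, hw⟩ := Poly.sz_le (show Poly (fun a => List.replicate (k a) ()) from hk)
  obtain ⟨u, hu⟩ := Poly.sz_le (show Poly (fun a => List.replicate (g a) ()) from hg)
  have hF : Poly (fun y : α × WState => wstep (crow (x y.1)) y.2) :=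
    Poly.comp (g := fun y : List ℤ × WState => wstep y.1 y.2)
      (f := fun y : α × WState => (crow (x y.1), y.2)) poly_wstep
      (Poly.pair (hc.comp (Poly.fst Poly.id)) (Poly.snd Poly.id))
  have hs : Poly (fun a => ((mkcall (g a) [] (rowsD (x a)) [startV (x a)], []) : WState)) := by
    have h1 : Poly (fun a => mkcall (g a) [] (rowsD (x a)) [startV (x a)]) :=
      poly_mkcall hgP (Poly.const _) hI (Poly.cons hv (Poly.const _))
    exact Poly.pair h1 (Poly.const _)
  obtain ⟨q4, hq4⟩ := hs.sz_le
  refine Poly.iterU (F := fun a s => wstep (crow (x a)) s) hk hs hF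
    (q4 + w * (4 * (q2 + 1) + 4 * (p.comp (q1 + (q2 + 1)) + q3) + 12 * u + 200)) ?_
  intro a i hi
  have hVB := hp (crow (x a)) (sz (rowsD (x a)) + 1)
  set β0 := p.eval (sz (crow (x a)) + (sz (rowsD (x a)) + 1)) with hβ0
  have hV : VB (crow (x a)) (sz (rowsD (x a)) + 1) (β0 + sz (startV (x a))) :=
    ⟨hVB.1.trans (Nat.le_add_right _ _), fun E I w h => (hVB.2 E I w h).trans
      (Nat.le_add_right _ _)⟩
  have hS : WStB (g a) (sz (rowsD (x a)) + 1) (β0 + sz (startV (x a)))
      ((mkcall (g a) [] (rowsD (x a)) [startV (x a)], []) : WState) := by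
    refine call_bound le_rfl (by simp; omega) (fun y hy => ?_) fun f hf => by simp at hf
    rw [List.mem_singleton] at hy
    subst hy
    omega
  refine (witer_bound hV hS i).2.trans ?_
  have h1 := hq1 a
  have h2 := hq2 a
  have h3 := hq3 a
  have h4 := hq4 a
  have h5 : k a ≤ w.eval (sz a) := by
    have := length_lt_sz (List.replicate (k a) ())
    rw [List.length_replicate] at this
    have := hw a
    omega
  have h7 : g a ≤ u.eval (sz a) := by
    have := length_lt_sz (List.replicate (g a) ())
    rw [List.length_replicate] at this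
    have := hu a
    omega
  have h6 : β0 ≤ (p.comp (q1 + (q2 + 1))).eval (sz a) := by
    rw [Polynomial.eval_comp]
    refine eval_mono p ?_
    simp only [Polynomial.eval_add, Polynomial.eval_one]
    omega
  simp only [Polynomial.eval_add, Polynomial.eval_mul, Polynomial.eval_one,
    Polynomial.eval_ofNat]
  refine Nat.add_le_add h4 (Nat.mul_le_mul (hi.trans h5) ?_)
  omega

theorem poly_term {s : α → WState} (hs : Poly s) : Poly (fun a => term (s a)) := by
  have h : Poly (fun s : WState => term s) := by
    unfold term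
    have h1 : Poly (fun x : WState × State => Sum.elim (fun _ : EIP => false)
        (fun _ : List (List ℤ) => x.2.2.isEmpty) x.2.1) :=
      Poly.sumElim (o := fun x : WState × State => x.2.1) (g := fun _ _ => false)
        (h := fun x _ => x.2.2.isEmpty) (by fun_prop) (Poly.const _) (by fun_prop)
    have h2 : Poly (fun s : WState => Sum.elim (fun _ : ℕ × EIP => false)
        (fun t : State => Sum.elim (fun _ => false) (fun _ => t.2.isEmpty) t.1) s.1) :=
      Poly.sumElim (o := fun s : WState => s.1) (g := fun _ _ => false)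
        (h := fun _ t => Sum.elim (fun _ => false) (fun _ => t.2.isEmpty) t.1)
        (by fun_prop) (Poly.const _) h1
    have h3 : Poly (fun s : WState => s.2.isEmpty) := by fun_prop
    exact Poly.and h2 h3
  exact h.comp hs

theorem poly_outP {s : α → WState} (hs : Poly s) : Poly (fun a => outP (s a)) := by
  have h : Poly (fun s : WState => outP s) := by
    unfold outP
    have h1 : Poly (fun x : WState × State => Sum.elim (fun _ : EIP => ([] : List (List ℤ)))
        (fun p : List (List ℤ) => p) x.2.1) :=
      Poly.sumElim (o := fun x : WState × State => x.2.1) (g := fun _ _ => [])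
        (h := fun _ p => p) (by fun_prop) (Poly.const _) (by fun_prop)
    exact Poly.sumElim (o := fun s : WState => s.1) (g := fun _ _ => ([] : List (List ℤ)))
        (h := fun _ t => Sum.elim (fun _ => []) (fun p => p) t.1)
        (by fun_prop) (Poly.const _) h1
  exact h.comp hs

theorem uPoly_min {f g : α → ℕ} (hf : Poly f) (hg : UPoly g) :
    UPoly (fun a => min (f a) (g a)) :=
  UPoly.of_le (n := g) (Poly.min hf hg.toPoly) hg fun _ => min_le_right _ _

theorem poly_firstK {x : α → Inp} {L K : α → ℕ} (hx : Poly x) (hL : UPoly L) (hK : UPoly K) :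
    Poly (fun a => firstK (x a) (L a) (K a)) := by
  have h1 : Poly (fun p : (α × ℕ) × ℕ =>
      term (runW (x p.1.1) (min p.2 (L p.1.1)) (min p.1.2 (K p.1.1)))) :=
    poly_term (poly_runW (by fun_prop) (uPoly_min (by fun_prop) (by fun_prop))
      (uPoly_min (by fun_prop) (by fun_prop)))
  have h2 : Poly (fun p : α × ℕ => (List.range (L p.1 + 1)).any fun g =>
      term (runW (x p.1) (min g (L p.1)) (min p.2 (K p.1)))) :=
    Poly.any (p := fun (p : α × ℕ) g => term (runW (x p.1) (min g (L p.1)) (min p.2 (K p.1))))
      (UPoly.range (by fun_prop)) h1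
  have h3 : Poly (fun a => (List.range (K a + 1)).filter fun k => (List.range (L a + 1)).any
      fun g => term (runW (x a) (min g (L a)) (min k (K a)))) :=
    Poly.filter (p := fun a k => (List.range (L a + 1)).any
      fun g => term (runW (x a) (min g (L a)) (min k (K a)))) (UPoly.range (by fun_prop)) h2
  have h4 := Poly.optGetD (Poly.head? h3) (Poly.const (0 : ℕ))
  refine h4.congr fun a => ?_
  unfold firstK
  congr 2
  refine List.filter_congr fun k hk => ?_
  rw [List.mem_range] at hk
  rw [Bool.eq_iff_iff, List.any_eq_true, List.any_eq_true]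
  refine exists_congr fun g => and_congr_right fun hg => ?_
  rw [List.mem_range] at hg
  rw [min_eq_left (by omega), min_eq_left (by omega)]

theorem firstK_le (x : Inp) (L K : ℕ) : firstK x L K ≤ K := by
  unfold firstK
  cases h : ((List.range (K + 1)).filter fun k =>
    (List.range (L + 1)).any fun g => term (runW x g k)).head? with
  | none => exact Nat.zero_le _
  | some k =>
    have := List.mem_range.1 (List.mem_filter.1 (List.mem_of_head? h)).1
    rw [Option.getD_some]
    omega

theorem firstG_le (x : Inp) (L k : ℕ) : firstG x L k ≤ L := by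
  unfold firstG
  cases h : ((List.range (L + 1)).filter fun g => term (runW x g k)).head? with
  | none => exact Nat.zero_le _
  | some k =>
    have := List.mem_range.1 (List.mem_filter.1 (List.mem_of_head? h)).1
    rw [Option.getD_some]
    omega

theorem poly_firstG {x : α → Inp} {L k : α → ℕ} (hx : Poly x) (hL : UPoly L) (hk : UPoly k) :
    Poly (fun a => firstG (x a) (L a) (k a)) := by
  have h1 : Poly (fun p : α × ℕ => term (runW (x p.1) (min p.2 (L p.1)) (k p.1))) :=
    poly_term (poly_runW (by fun_prop) (uPoly_min (by fun_prop) (by fun_prop)) (by fun_prop))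
  have h3 : Poly (fun a => (List.range (L a + 1)).filter fun g =>
      term (runW (x a) (min g (L a)) (k a))) :=
    Poly.filter (p := fun a g => term (runW (x a) (min g (L a)) (k a)))
      (UPoly.range (by fun_prop)) h1
  have h4 := Poly.optGetD (Poly.head? h3) (Poly.const (0 : ℕ))
  refine h4.congr fun a => ?_
  unfold firstG
  congr 2
  refine List.filter_congr fun g hg => ?_
  rw [List.mem_range] at hg
  rw [min_eq_left (by omega)]

theorem poly_lpW {x : α → Inp} {L K : α → ℕ} (hx : Poly x) (hL : UPoly L) (hK : UPoly K) :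
    Poly (fun a => lpW (x a) (L a) (K a)) := by
  unfold lpW
  have h1 : UPoly (fun a => firstK (x a) (L a) (K a)) :=
    UPoly.of_le (poly_firstK hx hL hK) hK fun a => firstK_le _ _ _
  have h2 : UPoly (fun a => firstG (x a) (L a) (firstK (x a) (L a) (K a))) :=
    UPoly.of_le (poly_firstG hx hL h1) hL fun a => firstG_le _ _ _
  exact poly_lpOut (by fun_prop) (poly_outP (poly_runW hx h2 h1))

theorem poly_lpBitsW {x : α → List Bool} {K : α → ℕ} (hx : Poly x) (hK : UPoly K) :
    Poly (fun a => lpBitsW (x a) (K a)) := by
  unfold lpBitsW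
  have h1 : Poly (fun a => unbits Inp (x a)) := poly_unbits.comp hx
  have h2 : Poly (fun p : α × Inp => lpW p.2 (x p.1).length (K p.1)) :=
    poly_lpW (Poly.snd Poly.id) (by fun_prop) (by fun_prop)
  exact Poly.optElim (h := fun a y => lpW y (x a).length (K a)) h1 (Poly.const _) h2

/-- the algorithm runs in quasi-polynomial time -/
theorem quasi_lpW : QuasiPolyTime (fun x =>
    bits (lpBitsW x ((16 * x.length + 16) ^ sz (16 * x.length + 16)))) := by
  have h1 : UPoly (fun x : List Bool => 16 * x.length + 16) := by fun_prop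
  have h2 : Poly (fun p : List Bool × List Unit => lpBitsW p.1 p.2.length) :=
    poly_lpBitsW (by fun_prop) (by fun_prop)
  have h3 := quasi_main h1 h2
  simpa only [List.length_replicate] using h3

theorem poly_lpK (D C : ℕ) : PolyTime (fun x => bits (lpBitsW x (Kst D C x.length))) := by
  refine polyTime_bits (poly_lpBitsW Poly.id ?_)
  unfold Kst b0
  have h1 : UPoly (fun x : List Bool => (x.length + 1) ^ (kA D * C + 4 * C + 2)) :=
    UPoly_pow (by fun_prop) _
  have h2 : UPoly (fun x : List Bool =>
      (x.length + (cst (D + 1)).1) ^ (cst (D + 1)).1) :=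
    UPoly_pow (by fun_prop) _
  fun_prop

end Pool.Agent.NPC.Y644
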