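import Pool.Agent.Y644.QW.PolyW
set_option autoImplicit false

/-!
# Polynomial time: the second algorithm
-/

namespace Pool.Agent.NPC.Y644

open Pool.Agent.Y644.QS Pool.Agent.Y644.QW Pool.Agent.H687R2.LLL Pool.Agent.NPC.H532.RP

/-- bounded frames -/
def WFrB (G M β : ℕ) (f : ℕ × EIP) : Prop :=
  f.1 ≤ G ∧ sz f.2.1 + sz f.2.2.1 ≤ M ∧ Sm β f.2.2.2

/-- bounded states -/
def WStB (G M β : ℕ) : WState → Prop
  | (Sum.inl f, st) => WFrB G M β f ∧ ∀ f ∈ st, WFrB G M β f
  | (Sum.inr s, st) => StB M β s ∧ ∀ f ∈ st, WFrB G M β f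

variable {c : List ℤ} {G M β : ℕ}

theorem sz_nat_small {g : ℕ} (h : g ≤ G) : sz g ≤ 4 * G + 1 := by
  have h1 := sz_nat_le g
  have h2 : Nat.size g ≤ g := Nat.size_le.2 Nat.lt_two_pow_self
  omega

theorem sz_call {g : ℕ} (hg : g ≤ G) (E I P : List (List ℤ)) :
    sz (mkcall g E I P) ≤ 4 * G + sz E + sz I + sz P + 10 := by
  unfold mkcall
  split_ifs
  · simp only [sz_inr, sz_inl, sz_pair, sz_list_nil]
    omega
  · have := sz_nat_small (G := G) (g := g - 1) (by omega)
    simp only [sz_inl, sz_pair]
    omega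

theorem call_bound {g : ℕ} (hg : g ≤ G) {E I P : List (List ℤ)} (hM : sz E + sz I ≤ M)
    (hP : Sm β P) {st : List (ℕ × EIP)} (hst : ∀ f ∈ st, WFrB G M β f) :
    WStB G M β (mkcall g E I P, st) := by
  unfold mkcall
  split_ifs
  · exact ⟨⟨⟨hM, hP⟩, fun f hf => by simp at hf⟩, hst⟩
  · exact ⟨⟨by simp only; omega, hM, hP⟩, hst⟩

theorem wfac_bound {g : ℕ} (hg : g ≤ G) {E I P : List (List ℤ)} {F : List ℤ} (hF : F ∈ I)
    (hM : sz E + sz I ≤ M) (hP : Sm β P) {st : List (ℕ × EIP)}
    (hst : ∀ f ∈ st, WFrB G M β f) : WStB G M β (wfac g E I P st F) ∧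
      sz (wfac g E I P st F) ≤ 4 * G + M + sz P + sz st + 20 := by
  have h1 := filter_ne hF
  have h2 := sz_nat_small hg
  unfold wfac
  refine ⟨⟨⟨hg, ?_, hP⟩, hst⟩, ?_⟩
  · simp only [sz_list_cons]
    omega
  · simp only [sz_pair, sz_inl, sz_list_cons]
    omega

theorem topF_mem {E I : List (List ℤ)} {v F : List ℤ}
    (h : (topF c E (jl c I) I v).head? = some F) : F ∈ I :=
  (List.mem_filter.1 (List.mem_of_head? h)).1

theorem wstep_bound (hV : VB c M β) {s : WState} (hs : WStB G M β s) :
    WStB G M β (wstep c s) ∧ sz (wstep c s) ≤ sz s + (4 * M + 4 * β + 12 * G + 200) := by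
  obtain ⟨s, st⟩ := s
  have hp3 := sz_pos st
  have e0 : ∀ s : State, sz ((Sum.inr s, st) : WState) = sz s + 4 + sz st + 1 := fun s => by
    rw [sz_pair, sz_inr]
  rcases s with ⟨g, E, I, P⟩ | ⟨x | p, l⟩
  · obtain ⟨⟨hg, hM, hP⟩, hst⟩ := hs
    simp only at hg hM hP
    have hp1 := sz_pos P
    have hp4 := sz_pos I
    have hp5 := sz_pos E
    have hpr : sz (prune c E I) ≤ sz I := sz_filter_le _ _
    have hpp := sz_pos (prune c E I)
    have hMp : sz E + sz (prune c E I) ≤ M := by omega
    have hgs := sz_nat_small hg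
    change WStB G M β (wcall c g E (prune c E I) P st) ∧
      sz (wcall c g E (prune c E I) P st) ≤ _
    unfold wcall
    split_ifs
    · refine ⟨⟨⟨hP, fun f hf => by simp at hf⟩, hst⟩, ?_⟩
      simp only [retW, sz_pair, sz_inl, sz_inr, sz_list_nil]
      omega
    · have h1 := hdp_small hV.1 hP
      cases hb : (topF c E (jl c (prune c E I)) (prune c E I) (hdp P)).head? with
      | none =>
        simp only [Option.elim_none]
        have h2 : sz (wS c E (prune c E I)) ≤ sz (prune c E I) := sz_filter_le _ _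
        have h3 := sz_call hg E (wS c E (prune c E I)) [hdp P]
        refine ⟨call_bound hg (by omega) (cons_small h1 fun x hx => by simp at hx)
          fun f hf => ?_, ?_⟩
        · rcases List.mem_cons.1 hf with rfl | hf
          · exact ⟨hg, hMp, hP⟩
          · exact hst f hf
        · rw [sz_list_cons, sz_list_nil] at h3
          have e : ∀ (a : (ℕ × EIP) ⊕ State) (b : List (ℕ × EIP)),
            sz ((a, b) : WState) = sz a + sz b + 1 := fun a b => sz_pair a b
          rw [e, e]
          simp only [sz_pair, sz_inl, sz_list_cons]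
          omega
      | some F =>
        simp only [Option.elim_some]
        obtain ⟨h2, h3⟩ := wfac_bound hg (topF_mem hb) hMp hP hst
        refine ⟨h2, h3.trans ?_⟩
        simp only [sz_pair, sz_inl]
        omega
  · obtain ⟨h1, h2⟩ := hs
    obtain ⟨h3, h4⟩ := step_bound hV h1
    change WStB G M β (Sum.inr (step c (Sum.inl x, l)), st) ∧
      sz ((Sum.inr (step c (Sum.inl x, l)), st) : WState) ≤ _
    refine ⟨⟨h3, h2⟩, ?_⟩
    rw [e0, e0]
    omega
  · cases l with
    | cons f l =>
      obtain ⟨h1, h2⟩ := hs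
      obtain ⟨h3, h4⟩ := step_bound hV h1
      change WStB G M β (Sum.inr (step c (Sum.inr p, f :: l)), st) ∧
        sz ((Sum.inr (step c (Sum.inr p, f :: l)), st) : WState) ≤ _
      refine ⟨⟨h3, h2⟩, ?_⟩
      rw [e0, e0]
      omega
    | nil =>
      cases st with
      | nil => exact ⟨hs, Nat.le_add_right _ _⟩
      | cons f st =>
        obtain ⟨g, E, I, P⟩ := f
        obtain ⟨⟨hp, -⟩, hst⟩ := hs
        obtain ⟨hg, hM, hP⟩ := hst (g, E, I, P) (by simp)
        simp only at hg hM hP
        have hst' : ∀ f ∈ st, WFrB G M β f := fun f hf => hst f (by simp [hf])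
        have hp1 := sz_pos p
        have hp4 := sz_pos st
        have hgs := sz_nat_small hg
        obtain ⟨t1, t2, -⟩ := trunc_small (S := wS c E I) hV hM hp
        change WStB G M β (wret c g E I P st (trunc c E I (wS c E I) p)) ∧
          sz (wret c g E I P st (trunc c E I (wS c E I) p)) ≤ _
        have h3 := sz_append_le (trunc c E I (wS c E I) p).1 P.tail
        have h4 := sz_tail_le P
        have h5 := sz_pos P
        unfold wret
        split_ifs
        · cases hb : (topF c E (jl c I) I (hdp (trunc c E I (wS c E I) p).1)).head? with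
          | none =>
            simp only [Option.elim_none]
            refine ⟨⟨⟨hP, fun f hf => by simp at hf⟩, hst'⟩, ?_⟩
            simp only [retW, sz_pair, sz_inr, sz_list_cons, sz_list_nil]
            omega
          | some F =>
            simp only [Option.elim_some]
            obtain ⟨h6, h7⟩ := wfac_bound hg (topF_mem hb) hM
              (append_small t1 (tail_small hP)) hst'
            refine ⟨h6, h7.trans ?_⟩
            simp only [sz_pair, sz_inr, sz_list_cons, sz_list_nil]
            omega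
        · refine ⟨⟨⟨append_small t1 (tail_small hP), fun f hf => by simp at hf⟩, hst'⟩, ?_⟩
          simp only [retW, sz_pair, sz_inr, sz_list_cons, sz_list_nil]
          omega

theorem witer_bound (hV : VB c M β) {s : WState} (hs : WStB G M β s) (n : ℕ) :
    WStB G M β ((wstep c)^[n] s) ∧
      sz ((wstep c)^[n] s) ≤ sz s + n * (4 * M + 4 * β + 12 * G + 200) := by
  induction n with
  | zero => exact ⟨hs, by simp⟩
  | succ n ih =>
    rw [Function.iterate_succ_apply']
    obtain ⟨h1, h2⟩ := wstep_bound hV ih.1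
    refine ⟨h1, h2.trans ?_⟩
    generalize 4 * M + 4 * β + 12 * G + 200 = H at *
    rw [Nat.succ_mul]
    omega

end Pool.Agent.NPC.Y644
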