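import Pool.Agent.Y644.QW.Bound
import Pool.Agent.Y644.QS.Final
set_option autoImplicit false

/-!
# The bounds for the number of steps
-/

namespace Pool.Agent.Y644.QW

open Finset Pool.Agent.Y644.QS Pool.Agent.H687R2.LLL Pool.Agent.NPC Pool.Agent.NPC.H532.RP

variable {n : ℕ} {c : List ℤ} {hN : c.length = n + 1}

theorem dimLe_top (hN : c.length = n + 1) (E : List (List ℤ)) : DimLe c E n := by
  unfold DimLe
  refine (Submodule.finrank_le _).trans ?_
  rw [finrank_euclideanSpace, Fintype.card_fin, hN]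

theorem length_prune_filter {E I : List (List ℤ)} (p : List ℤ → Bool) :
    ((prune c E I).filter p).length ≤ I.length :=
  (List.length_filter_le _ _).trans (List.length_filter_le _ _)

/-- the general bound -/
theorem run_general (hN : c.length = n + 1) {M g : ℕ} {I : List (List ℤ)} {v : List ℤ}
    (hM : I.length ≤ M) (hI : Len c.length I) (hv : Vx c [] (jl c I) v) :
    WRes c [] I v [] [] ((bnd n M + 2) * Nat.choose (g + n) g) (mkcall g [] I [v], []) := by
  have hc : 0 < c.length := by omega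
  refine wrun hc (bnd_pos n M) (Q := fun _ _ I => I.length ≤ M) ?_ ?_ ?_ g n [] I v [] [] hM
    (dimLe_top hN _) (fun r hr => by simp at hr) hI hv
  · intro g E I F h _ _ _
    exact (length_prune_filter _).trans h
  · intro g E I w h _ _ _ _
    exact (length_prune_filter _).trans h
  · intro E I v P0 h hE hI hv
    exact ⟨_, run_call hc M n E I v P0 [] h (dimLe_top hN _) hE hI hv⟩

variable {W Rs : Set (List ℤ)} {Exc : Finset (List ℤ)} {X : Finset (Fin n)}

/-- the bound with a nested block structure, with a bound `B0` for the last stage -/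
theorem run_nested {D B0 M : ℕ} (hG : 1 ≤ (cst D).1) (hB : 1 ≤ B0)
    {I : List (List ℤ)} {v : List ℤ} (hM : I.length ≤ M) (hI : Len c.length I)
    (hnd : I.Nodup) (hIW : ∀ r ∈ I, r ∈ W) (hv : Vx c [] (jl c I) v)
    (hb : ∀ E I v P0, Hs hN W (cst D).1 E I → I.Nodup → I.length ≤ M →
      (∀ r ∈ I, live c E r = true) → Len c.length E → Len c.length I → Vx c E (jl c I) v →
      Result c E I v P0 [] B0 B0 (Sum.inl (E, I, v :: P0), [])) :
    WRes c [] I v [] [] ((B0 + 2) * Nat.choose ((cst D).1 + n) (cst D).1)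
      (mkcall (cst D).1 [] I [v], []) := by
  have hc : 0 < c.length := by omega
  refine wrun hc hB (Q := fun g E I => ∃ s, s + g = (cst D).1 ∧ Hs hN W s E I ∧ I.Nodup ∧
    I.length ≤ M ∧ (g = 0 → ∀ r ∈ I, live c E r = true)) ?_ ?_ ?_ _ n [] I v [] []
    ⟨0, by omega, Hs.start hIW, hnd, hM, fun h => by omega⟩
    (dimLe_top hN _) (fun r hr => by simp at hr) hI hv
  · rintro g E I F ⟨s, h1, h2, h3, h4, -⟩ hE hI hF
    refine ⟨s, h1, h2.shrink (fun r hr => List.mem_cons_of_mem _ hr) ?_,
      (h3.filter _).filter _, (length_prune_filter _).trans h4, fun h => by omega⟩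
    rintro r (hr | hr)
    · rcases List.mem_cons.1 hr with rfl | hr
      · exact Or.inr (mem_prune.1 hF).1
      · exact Or.inl hr
    · exact Or.inr (mem_prune.1 (List.mem_filter.1 hr).1).1
  · rintro g E I w ⟨s, h1, h2, h3, h4, -⟩ hE hI hw hext
    have h5 : Hs hN W s E (prune c E I) := h2.shrink (fun r hr => hr) fun r hr => by
      rcases hr with hr | hr
      · exact Or.inl hr
      · exact Or.inr (mem_prune.1 hr).1
    refine ⟨s + 1, by omega, h5.step (T := {r | r ∈ prune c E I ∧ dot r w = 0})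
      (fun r hr => hr.1) (fun r hr hrE => ?_) (fun r hr => ?_) ?_, (h3.filter _).filter _,
      (length_prune_filter _).trans h4, fun _ r hr => (mem_prune.1 (List.mem_filter.1 hr).1).2⟩
    · obtain ⟨h, e1, -, e3⟩ := (live_iff hE (hI r (mem_prune.1 hr.1).1)).1 (mem_prune.1 hr.1).2
      rw [e1 r hrE] at e3
      exact lt_irrefl _ e3
    · obtain ⟨a1, a2⟩ := List.mem_filter.1 hr
      refine ⟨a1, fun h => ?_⟩
      rw [h.2] at a2
      simp at a2
    · exact z_ext hN (hI.filter _) hw hext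
  · rintro E I v P0 ⟨s, h1, h2, h3, h4, h5⟩ hE hI hv
    rw [add_zero] at h1
    subst h1
    exact ⟨_, hb E I v P0 h2 h3 h4 (h5 rfl) hE hI hv⟩

/-- the bound for the dimension -/
def dmax (D e : ℕ) : ℕ := (cst D).2.1 * ((cst D).1 * (1 + e) + e)

/-- few exceptional rows and columns -/
theorem run_few {D M : ℕ} (hG : 1 ≤ (cst D).1) (hp : PN (aL hN) D (X : Set (Fin n)) Rs)
    (hW : W ⊆ Rs ∪ Exc) {I : List (List ℤ)} {v : List ℤ} (hM : I.length ≤ M)
    (hI : Len c.length I) (hnd : I.Nodup) (hIW : ∀ r ∈ I, r ∈ W) (hv : Vx c [] (jl c I) v) :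
    WRes c [] I v [] [] ((bnd (dmax D Exc.card + (n - X.card)) M + 2) *
      Nat.choose ((cst D).1 + n) (cst D).1) (mkcall (cst D).1 [] I [v], []) := by
  have hc : 0 < c.length := by omega
  refine run_nested (hN := hN) hG (bnd_pos _ _) hM hI hnd hIW hv ?_
  intro E I v P0 h1 _ h3 _ h5 h6 h7
  exact run_call hc M _ E I v P0 [] h3 (dimLe_of_z (dim_bound hp hW h1 h7)) h5 h6 h7

/-- no exceptional columns -/
theorem run_rows {D M : ℕ} (hG : 1 ≤ (cst D).1) (hp : PN (aL hN) D Set.univ Rs)
    (hW : W ⊆ Rs ∪ Exc) {I : List (List ℤ)} {v : List ℤ} (hM : I.length ≤ M)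
    (hI : Len c.length I) (hnd : I.Nodup) (hIW : ∀ r ∈ I, r ∈ W) (hv : Vx c [] (jl c I) v) :
    WRes c [] I v [] [] ((bnd (dmax D Exc.card) ((cst D).2.2 * dmax D Exc.card + Exc.card) + 2) *
      Nat.choose ((cst D).1 + n) (cst D).1) (mkcall (cst D).1 [] I [v], []) := by
  have hc : 0 < c.length := by omega
  refine run_nested (hN := hN) hG (bnd_pos _ _) hM hI hnd hIW hv ?_
  intro E I v P0 h1 h2 h3 h4 h5 h6 h7
  have e1 : (((Finset.univ : Finset (Fin n)) : Set (Fin n))) = Set.univ := Finset.coe_univ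
  have hd := dim_bound (X := Finset.univ) (by rw [e1]; exact hp) hW h1 h7
  have hd2 := dimLe_of_z hd
  rw [e1] at hd
  have hIW' : ∀ r ∈ I, r ∈ W := by
    obtain ⟨Eh, Th, Uh, -, a1, -, a3⟩ := h1
    intro r hr
    have := a3 (cst D).1 (Or.inr (show r ∈ Uh (cst D).1 by
      rw [(a1 _ le_rfl).2.2]; exact Or.inr hr))
    exact this
  have hr := row_bound hp hW hIW' h5 h6 h2 h4 hd
  refine run_call hc _ _ E I v P0 [] hr ?_ h5 h6 h7
  have e2 : n - (Finset.univ : Finset (Fin n)).card = 0 := by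
    rw [Finset.card_univ, Fintype.card_fin, Nat.sub_self]
  rw [e2, add_zero] at hd2
  exact hd2

/-! ### Linear programs -/

variable {m : ℕ} {A : Fin m → Fin n → ℚ} {b : Fin m → ℚ} {cc vv : Fin n → ℚ}

/-- the exceptional rows -/
def excR (A : Fin m → Fin n → ℚ) (b : Fin m → ℚ) (R : Finset (Fin m)) (X : Finset (Fin n)) :
    Finset (List ℤ) :=
  (Finset.univ \ R).image (rowR A b) ∪ (Finset.univ \ X).image (fun j : Fin n => rowP n (j : ℕ))

theorem card_excR (R : Finset (Fin m)) (X : Finset (Fin n)) :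
    (excR A b R X).card ≤ (m - R.card) + (n - X.card) := by
  unfold excR
  refine (Finset.card_union_le _ _).trans (Nat.add_le_add ?_ ?_)
  · refine Finset.card_image_le.trans ?_
    rw [Finset.card_sdiff_of_subset (Finset.subset_univ _), Finset.card_univ, Fintype.card_fin]
  · refine Finset.card_image_le.trans ?_
    rw [Finset.card_sdiff_of_subset (Finset.subset_univ _), Finset.card_univ, Fintype.card_fin]

theorem rowsI_sub (R : Finset (Fin m)) (X : Finset (Fin n)) :
    {r | r ∈ rowsI (inp A b cc vv)} ⊆ rset A b R X ∪ (excR A b R X : Set (List ℤ)) := by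
  intro r hr
  rcases List.mem_append.1 hr with hr | hr
  · obtain ⟨i, rfl⟩ := mem_rowsA.1 hr
    by_cases hi : i ∈ R
    · exact Or.inl (Or.inl ⟨i, hi, rfl⟩)
    · right
      unfold excR
      rw [Finset.coe_union]
      left
      rw [Finset.mem_coe, Finset.mem_image]
      exact ⟨i, by simp [hi], rfl⟩
  · obtain ⟨j, hj, rfl⟩ := mem_rowsN.1 hr
    by_cases hi : (⟨j, hj⟩ : Fin n) ∈ X
    · exact Or.inl (Or.inr ⟨_, hi, rfl⟩)
    · right
      unfold excR
      rw [Finset.coe_union]
      right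
      rw [Finset.mem_coe, Finset.mem_image]
      exact ⟨⟨j, hj⟩, by simp [hi], rfl⟩

theorem cst_pos (D : ℕ) : 1 ≤ (cst (D + 1)).1 := by
  simp only [cst]; omega

theorem dmax_mono {D e e' : ℕ} (h : e ≤ e') : dmax D e ≤ dmax D e' := by
  unfold dmax
  gcongr

/-- the input rows without duplicates -/
abbrev rowsD (x : Inp) : List (List ℤ) := dd (rowsI x)

theorem rowsD_facts : (rowsD (inp A b cc vv)).length ≤ m + n ∧
    Len (crow (inp A b cc vv)).length (rowsD (inp A b cc vv)) :=
  ⟨(length_dd_le _).trans length_rowsI.le, fun r hr => len_rowsI r (mem_dd.1 hr)⟩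

variable (hv : re vv ∈ Set.extremePoints ℝ (polyhedron A b))

include hv

theorem run_lp_general (g : ℕ) :
    WRes (crow (inp A b cc vv)) [] (rowsD (inp A b cc vv)) (startV (inp A b cc vv)) [] []
      ((bnd n (m + n) + 2) * Nat.choose (g + n) g)
      (mkcall g [] (rowsD (inp A b cc vv)) [startV (inp A b cc vv)], []) :=
  run_general length_crow rowsD_facts.1 rowsD_facts.2 (vx_dd (start_vx hv))

theorem run_lp_few {D : ℕ} {X : Finset (Fin n)} {R : Finset (Fin m)} (h : Nested A D X R) :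
    WRes (crow (inp A b cc vv)) [] (rowsD (inp A b cc vv)) (startV (inp A b cc vv)) [] []
      ((bnd (dmax (D + 1) ((m - R.card) + (n - X.card)) + (n - X.card)) (m + n) + 2) *
        Nat.choose ((cst (D + 1)).1 + n) (cst (D + 1)).1)
      (mkcall (cst (D + 1)).1 [] (rowsD (inp A b cc vv)) [startV (inp A b cc vv)], []) := by
  obtain ⟨Q, j, h1, h2⟩ := run_few (hN := length_crow) (cst_pos D)
    (h.pn length_crow b) (rowsI_sub (cc := cc) (vv := vv) R X) rowsD_facts.1 rowsD_facts.2
    (nodup_dd _) (fun r hr => mem_dd.1 hr) (vx_dd (start_vx (c := cc) hv))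
  refine ⟨Q, j, h1.trans (Nat.mul_le_mul_right _ (Nat.add_le_add_right ?_ 2)), h2⟩
  exact bnd_mono_left (Nat.add_le_add_right (dmax_mono (card_excR R X)) _)

theorem run_lp_rows {D : ℕ} {R : Finset (Fin m)} (h : Nested A D Finset.univ R) :
    WRes (crow (inp A b cc vv)) [] (rowsD (inp A b cc vv)) (startV (inp A b cc vv)) [] []
      ((bnd (dmax (D + 1) (m - R.card)) ((cst (D + 1)).2.2 * dmax (D + 1) (m - R.card) +
        (m - R.card)) + 2) * Nat.choose ((cst (D + 1)).1 + n) (cst (D + 1)).1)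
      (mkcall (cst (D + 1)).1 [] (rowsD (inp A b cc vv)) [startV (inp A b cc vv)], []) := by
  have hp := h.pn (length_crow (A := A) (b := b) (c := cc) (v := vv)) b
  rw [Finset.coe_univ] at hp
  obtain ⟨Q, j, h1, h2⟩ := run_rows (hN := length_crow) (cst_pos D) hp
    (rowsI_sub (cc := cc) (vv := vv) R Finset.univ) rowsD_facts.1 rowsD_facts.2
    (nodup_dd _) (fun r hr => mem_dd.1 hr) (vx_dd (start_vx (c := cc) hv))
  have h3 : (excR A b R Finset.univ).card ≤ m - R.card := by
    refine (card_excR R Finset.univ).trans ?_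
    rw [Finset.card_univ, Fintype.card_fin, Nat.sub_self, add_zero]
  refine ⟨Q, j, h1.trans (Nat.mul_le_mul_right _ (Nat.add_le_add_right ?_ 2)), h2⟩
  have h4 := dmax_mono (D := D + 1) h3
  refine (bnd_mono_left h4).trans (bnd_mono ?_)
  exact Nat.add_le_add (Nat.mul_le_mul_left _ h4) h3

end Pool.Agent.Y644.QW
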