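import Pool.Agent.Y644.QW.Nest
import Pool.Agent.Y644.QS.Seq
set_option autoImplicit false

/-!
# Nested block structures
-/

namespace Pool.Agent.Y644.QW

open Finset Pool.Agent.Y644.QS Pool.Agent.H687R2.LLL Pool.Agent.NPC

/-- the constants -/
def cst : ℕ → ℕ × ℕ × ℕ
  | 0 => (0, 1, 0)
  | D + 1 => ((cst D).1 + ((2 * (cst D).2.2 + 1) * ((cst D).2.1 * ((cst D).1 + 1)) + 1),
      (cst D).2.1 * ((cst D).1 + 2), 2 * (cst D).2.2 + 1)

section Abstract

variable {n : ℕ} {ρ : Type*}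

/-- the bounds for the depth `D` -/
def PN (a : ρ → (Fin n → ℝ) →ₗ[ℝ] ℝ) (D : ℕ) (X : Set (Fin n)) (R : Set ρ) : Prop :=
  Claim a (cst D).1 (cst D).2.1 X R ∧ LiveLe a (cst D).2.2 X R

variable {a : ρ → (Fin n → ℝ) →ₗ[ℝ] ℝ} {D D' : ℕ} {X X₁ X₂ : Set (Fin n)} {R R₁ R₂ : Set ρ}

theorem PN.succ (h : PN a D X R) : PN a (D + 1) X R :=
  ⟨h.1.mono (Nat.le_add_right _ _) (Nat.le_mul_of_pos_right _ (by omega)),
    h.2.mono (by simp only [cst]; omega)⟩

theorem PN.mono (h : PN a D X R) (hD : D ≤ D') : PN a D' X R := by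
  induction D', hD using Nat.le_induction with
  | base => exact h
  | succ k _ ih => exact ih.succ

theorem PN.off (h : Off a R X) : PN a 0 X R := claim_off h

theorem PN.union (hX : Disjoint X₁ X₂) (h₁ : Off a R₁ X₂) (h₂ : Off a R₂ X₁)
    (c₁ : PN a D X₁ R₁) (c₂ : PN a D X₂ R₂) : PN a D (X₁ ∪ X₂) (R₁ ∪ R₂) :=
  claim_union hX h₁ h₂ c₁ c₂

theorem PN.add (h : PN a D X R) (r : ρ) : PN a (D + 1) X (insert r R) := claim_add h r

end Abstract

/-- The columns `X` and the rows `R` of the matrix `A` form a nested block structure of depth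
`D`. -/
inductive Nested {m n : ℕ} (A : Fin m → Fin n → ℚ) : ℕ → Finset (Fin n) → Finset (Fin m) → Prop
  | nil (D : ℕ) (X : Finset (Fin n)) (R : Finset (Fin m)) (h : ∀ i ∈ R, ∀ j ∈ X, A i j = 0) :
      Nested A D X R
  | union (D : ℕ) (X₁ X₂ : Finset (Fin n)) (R₁ R₂ : Finset (Fin m)) (hX : Disjoint X₁ X₂)
      (h₁ : ∀ i ∈ R₁, ∀ j ∈ X₂, A i j = 0) (h₂ : ∀ i ∈ R₂, ∀ j ∈ X₁, A i j = 0)
      (c₁ : Nested A D X₁ R₁) (c₂ : Nested A D X₂ R₂) : Nested A D (X₁ ∪ X₂) (R₁ ∪ R₂)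
  | add (D : ℕ) (X : Finset (Fin n)) (R : Finset (Fin m)) (i : Fin m) (c : Nested A D X R) :
      Nested A (D + 1) X (insert i R)

/-- the rows as functionals, at `τ = 0` -/
noncomputable def aL {n N : ℕ} (hN : N = n + 1) (r : List ℤ) : (Fin n → ℝ) →ₗ[ℝ] ℝ :=
  (rf N r).comp ((eN hN).toLinearMap.comp (LinearMap.inl ℝ (Fin n → ℝ) ℝ))

theorem aL_apply {n N : ℕ} (hN : N = n + 1) (r : List ℤ) (x : Fin n → ℝ) :
    aL hN r x = rf N r (eN hN (x, 0)) := rfl

theorem aL_eq {n N : ℕ} (hN : N = n + 1) (r : List ℤ) (x : Fin n → ℝ) :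
    aL hN r x = ∑ j : Fin n, (r.getD j 0 : ℝ) * x j := by
  rw [aL_apply, rf_eN, mul_zero, add_zero]

variable {m n N : ℕ}

/-- the row `A i x ≤ b i` -/
def rowR (A : Fin m → Fin n → ℚ) (b : Fin m → ℚ) (i : Fin m) : List ℤ :=
  zrow (List.ofFn (A i) ++ [-b i])

/-- the row `x j ≥ 0` -/
def rowP (n j : ℕ) : List ℤ := negV (unitV (n + 1) j)

theorem aL_rowR (hN : N = n + 1) (A : Fin m → Fin n → ℚ) (b : Fin m → ℚ) (i : Fin m)
    (x : Fin n → ℝ) : aL hN (rowR A b i) x =
      (zden (List.ofFn (A i) ++ [-b i]) : ℝ) * ∑ j, (A i j : ℝ) * x j := by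
  rw [aL_apply, rowR, rf_zrow, mul_zero, add_zero]

theorem aL_rowP (hN : N = n + 1) (j : Fin n) (x : Fin n → ℝ) :
    aL hN (rowP n j) x = - x j := by
  subst hN
  rw [aL_apply, rowP, rf_negV, rf_unitV (by omega)]
  simp [eN]

/-- the rows of a block -/
def rset (A : Fin m → Fin n → ℚ) (b : Fin m → ℚ) (R : Finset (Fin m)) (X : Finset (Fin n)) :
    Set (List ℤ) := {r | (∃ i ∈ R, r = rowR A b i) ∨ ∃ j ∈ X, r = rowP n j}

variable {A : Fin m → Fin n → ℚ} {b : Fin m → ℚ}

theorem off_rowR (hN : N = n + 1) {i : Fin m} {X : Finset (Fin n)} (h : ∀ j ∈ X, A i j = 0)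
    {x : Fin n → ℝ} (hx : ∀ j, j ∉ (X : Set (Fin n)) → x j = 0) : aL hN (rowR A b i) x = 0 := by
  rw [aL_rowR, Finset.sum_eq_zero, mul_zero]
  intro j _
  by_cases hj : j ∈ X
  · rw [h j hj]; simp
  · rw [hx j (by simpa using hj), mul_zero]

theorem off_rowP (hN : N = n + 1) {j : Fin n} {X : Finset (Fin n)} (h : j ∉ X)
    {x : Fin n → ℝ} (hx : ∀ j, j ∉ (X : Set (Fin n)) → x j = 0) : aL hN (rowP n j) x = 0 := by
  rw [aL_rowP, hx j (by simpa using h), neg_zero]

theorem pn_nil (hN : N = n + 1) (R : Finset (Fin m)) (X : Finset (Fin n)) :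
    (∀ i ∈ R, ∀ j ∈ X, A i j = 0) → PN (aL hN) 1 (X : Set (Fin n)) (rset A b R X) := by
  classical
  induction X using Finset.induction_on with
  | empty =>
    intro _
    refine PN.succ (PN.off fun r _ x hx => ?_)
    have : x = 0 := funext fun j => hx j (by simp)
    rw [this, map_zero]
  | insert j X hj ih =>
    intro h
    have h1 := ih fun i hi j' hj' => h i hi j' (Finset.mem_insert_of_mem hj')
    have h2 : PN (aL hN) 1 ({j} : Set (Fin n)) (insert (rowP n j) (rset A b R ∅)) := by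
      refine PN.add (PN.off fun r hr x hx => ?_) _
      rcases hr with ⟨i, hi, rfl⟩ | ⟨j', hj', -⟩
      · refine off_rowR hN (X := {j}) (fun j' hj' => ?_) (by simpa using hx)
        rw [Finset.mem_singleton] at hj'
        subst hj'
        exact h i hi j' (Finset.mem_insert_self _ _)
      · simp at hj'
    have h3 := PN.union (a := aL hN) (X₁ := ({j} : Set (Fin n))) (X₂ := (X : Set (Fin n)))
      (by simpa using hj) ?_ ?_ h2 h1
    · have e1 : (({j} : Set (Fin n)) ∪ (X : Set (Fin n))) =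
          ((insert j X : Finset (Fin n)) : Set (Fin n)) := by
        rw [Finset.coe_insert]; rfl
      have e2 : insert (rowP n j) (rset A b R ∅) ∪ rset A b R X = rset A b R (insert j X) := by
        ext r
        simp only [rset, Set.mem_union, Set.mem_insert_iff, Set.mem_ofPred_eq,
          Finset.mem_insert, Finset.notMem_empty, false_and, exists_false, or_false]
        constructor
        · rintro ((rfl | h) | (h | ⟨j', h, rfl⟩))
          · exact Or.inr ⟨j, Or.inl rfl, rfl⟩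
          · exact Or.inl h
          · exact Or.inl h
          · exact Or.inr ⟨j', Or.inr h, rfl⟩
        · rintro (h | ⟨j', rfl | h, rfl⟩)
          · exact Or.inr (Or.inl h)
          · exact Or.inl (Or.inl rfl)
          · exact Or.inr (Or.inr ⟨j', h, rfl⟩)
      rw [e1, e2] at h3
      exact h3
    · intro r hr x hx
      rcases Set.mem_insert_iff.1 hr with rfl | hr
      · exact off_rowP hN hj hx
      · rcases hr with ⟨i, hi, rfl⟩ | ⟨j', hj', -⟩
        · exact off_rowR hN (fun j' hj' => h i hi j' (Finset.mem_insert_of_mem hj')) hx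
        · simp at hj'
    · intro r hr x hx
      have hx' : ∀ j', j' ∉ ((({j} : Finset (Fin n))) : Set (Fin n)) → x j' = 0 := by
        simpa using hx
      rcases hr with ⟨i, hi, rfl⟩ | ⟨j', hj', rfl⟩
      · refine off_rowR hN (fun j' hj' => ?_) hx'
        rw [Finset.mem_singleton] at hj'
        subst hj'
        exact h i hi j' (Finset.mem_insert_self _ _)
      · refine off_rowP hN (fun h' => hj ?_) hx'
        rw [Finset.mem_singleton] at h'
        rw [← h']
        exact hj'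

/-- the bounds for a nested block structure -/
theorem Nested.pn (hN : N = n + 1) (b : Fin m → ℚ) {D : ℕ} {X : Finset (Fin n)}
    {R : Finset (Fin m)} (h : Nested A D X R) :
    PN (aL hN) (D + 1) (X : Set (Fin n)) (rset A b R X) := by
  classical
  induction h with
  | nil D X R h => exact (pn_nil hN R X h).mono (by omega)
  | union D X₁ X₂ R₁ R₂ hX h₁ h₂ _ _ c₁ c₂ =>
    have off : ∀ {X₁ X₂ : Finset (Fin n)} {R₁ : Finset (Fin m)}, Disjoint X₁ X₂ →
        (∀ i ∈ R₁, ∀ j ∈ X₂, A i j = 0) → Off (aL hN) (rset A b R₁ X₁) (X₂ : Set (Fin n)) := by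
      intro X₁ X₂ R₁ hX h₁ r hr x hx
      rcases hr with ⟨i, hi, rfl⟩ | ⟨j, hj, rfl⟩
      · exact off_rowR hN (h₁ i hi) hx
      · exact off_rowP hN (fun h => Finset.disjoint_left.1 hX hj h) hx
    have h3 := PN.union (a := aL hN) (Finset.disjoint_coe.2 hX) (off hX h₁) (off hX.symm h₂)
      c₁ c₂
    have e1 : ((X₁ : Set (Fin n)) ∪ (X₂ : Set (Fin n))) =
        ((X₁ ∪ X₂ : Finset (Fin n)) : Set (Fin n)) := by
      rw [Finset.coe_union]
    have e2 : rset A b R₁ X₁ ∪ rset A b R₂ X₂ = rset A b (R₁ ∪ R₂) (X₁ ∪ X₂) := by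
      ext r
      simp only [rset, Set.mem_union, Set.mem_ofPred_eq, Finset.mem_union]
      constructor
      · rintro ((⟨i, h, rfl⟩ | ⟨j, h, rfl⟩) | (⟨i, h, rfl⟩ | ⟨j, h, rfl⟩))
        · exact Or.inl ⟨i, Or.inl h, rfl⟩
        · exact Or.inr ⟨j, Or.inl h, rfl⟩
        · exact Or.inl ⟨i, Or.inr h, rfl⟩
        · exact Or.inr ⟨j, Or.inr h, rfl⟩
      · rintro (⟨i, h | h, rfl⟩ | ⟨j, h | h, rfl⟩)
        · exact Or.inl (Or.inl ⟨i, h, rfl⟩)
        · exact Or.inr (Or.inl ⟨i, h, rfl⟩)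
        · exact Or.inl (Or.inr ⟨j, h, rfl⟩)
        · exact Or.inr (Or.inr ⟨j, h, rfl⟩)
    rw [e1, e2] at h3
    exact h3
  | add D X R i _ c =>
    have h3 := PN.add c (rowR A b i)
    have e2 : insert (rowR A b i) (rset A b R X) = rset A b (insert i R) X := by
      ext r
      simp only [rset, Set.mem_insert_iff, Set.mem_ofPred_eq, Finset.mem_insert]
      constructor
      · rintro (rfl | ⟨i', h, rfl⟩ | h)
        · exact Or.inl ⟨i, Or.inl rfl, rfl⟩
        · exact Or.inl ⟨i', Or.inr h, rfl⟩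
        · exact Or.inr h
      · rintro (⟨i', rfl | h, rfl⟩ | h)
        · exact Or.inl rfl
        · exact Or.inr (Or.inl ⟨i', h, rfl⟩)
        · exact Or.inr (Or.inr h)
    rw [e2] at h3
    exact h3

end Pool.Agent.Y644.QW
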